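import Pool.Agent.Q116.ES.Star

set_option autoImplicit false

/-!
The numbers `α(n, p, r)`, and averaging over the sets of `M` vertices.
-/

namespace Q116.ES

open Finset

/-- `K_p^r`-free families of `r`-sets -/
def Free {V : Type*} [DecidableEq V] (r p : ℕ) (F : Finset (Finset V)) : Prop :=
  (∀ e ∈ F, e.card = r) ∧ ∀ S : Finset V, S.card = p → ¬ S.powersetCard r ⊆ F

open Classical in
/-- the largest size of a `K_p^r`-free family of `r`-subsets of `Fin n` -/
noncomputable def alpha (n p r : ℕ) : ℕ :=
  (univ.filter fun F : Finset (Finset (Fin n)) => Free r p F).sup card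

lemma le_alpha {n p r : ℕ} {F : Finset (Finset (Fin n))} (hF : Free r p F) :
    F.card ≤ alpha n p r := by
  classical
  unfold alpha
  exact le_sup (f := card) (mem_filter.2 ⟨mem_univ _, hF⟩)

lemma exists_alpha {r p : ℕ} (hr : 1 ≤ r) (hp : r < p) (n : ℕ) :
    ∃ F : Finset (Finset (Fin n)), Free r p F ∧ F.card = alpha n p r := by
  classical
  have hne : (univ.filter fun F : Finset (Finset (Fin n)) => Free r p F).Nonempty := by
    refine ⟨∅, mem_filter.2 ⟨mem_univ _, ⟨fun e he => absurd he (notMem_empty e), ?_⟩⟩⟩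
    intro S hS h
    have h1 := card_le_card h
    rw [card_powersetCard, hS, card_empty] at h1
    have := Nat.choose_pos hp.le
    omega
  obtain ⟨F, hF, hFc⟩ := exists_mem_eq_sup _ hne card
  exact ⟨F, (mem_filter.1 hF).2, hFc.symm⟩

lemma Free.card_le {n r p : ℕ} {F : Finset (Finset (Fin n))} (hF : Free r p F)
    (U : Finset (Fin n)) (hU : ∀ e ∈ F, e ⊆ U) : F.card ≤ alpha U.card p r := by
  classical
  let e : Fin U.card ↪ Fin n := (U.orderEmbOfFin rfl).toEmbedding
  have he : univ.map e = U := by
    have := U.range_orderEmbOfFin rfl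
    ext x
    have h2 : x ∈ Set.range (U.orderEmbOfFin rfl) ↔ x ∈ (U : Set (Fin n)) := by rw [this]
    rw [mem_map]
    constructor
    · rintro ⟨i, -, rfl⟩
      exact mem_coe.1 (h2.1 ⟨i, rfl⟩)
    · intro hx
      obtain ⟨i, hi⟩ := h2.2 (mem_coe.2 hx)
      exact ⟨i, mem_univ _, hi⟩
  let F' : Finset (Finset (Fin U.card)) := univ.filter fun s => s.map e ∈ F
  have hF' : Free r p F' := by
    refine ⟨?_, ?_⟩
    · intro s hs
      rw [← hF.1 _ (mem_filter.1 hs).2, card_map]
    · intro S hS hsub
      apply hF.2 (S.map e) (by rw [card_map, hS])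
      intro t ht
      rw [powersetCard_map, mem_map] at ht
      obtain ⟨s, hs, rfl⟩ := ht
      exact (mem_filter.1 (hsub hs)).2
  refine le_trans (le_of_eq ?_) (le_alpha hF')
  have : F = F'.map (mapEmbedding e).toEmbedding := by
    ext t
    rw [mem_map]
    constructor
    · intro ht
      obtain ⟨s, -, hs⟩ := subset_map_iff.1 (show t ⊆ univ.map e by rw [he]; exact hU t ht)
      refine ⟨s, mem_filter.2 ⟨mem_univ _, ?_⟩, ?_⟩
      · rw [← hs]; exact ht
      · show s.map e = t
        exact hs.symm
    · rintro ⟨s, hs, rfl⟩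
      exact (mem_filter.1 hs).2
  conv_lhs => rw [this]
  rw [card_map]

/-- the number of the sets of size `M` containing a set of size `k` -/
lemma card_supersets {n : ℕ} (e : Finset (Fin n)) (M : ℕ) (hM : e.card ≤ M) :
    ((univ.powersetCard M).filter fun U => e ⊆ U).card = (n - e.card).choose (M - e.card) := by
  classical
  have h : ((univ.powersetCard M).filter fun U => e ⊆ U).card =
      ((eᶜ).powersetCard (M - e.card)).card := by
    apply card_nbij' (fun U => U \ e) (fun W => W ∪ e)
    · intro U hU
      rw [mem_coe, mem_filter, mem_powersetCard] at hU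
      rw [mem_coe, mem_powersetCard]
      refine ⟨fun x hx => ?_, ?_⟩
      · rw [mem_sdiff] at hx
        rw [mem_compl]
        exact hx.2
      · rw [card_sdiff_of_subset hU.2, hU.1.2]
    · intro W hW
      rw [mem_coe, mem_powersetCard] at hW
      rw [mem_coe, mem_filter, mem_powersetCard]
      refine ⟨⟨subset_univ _, ?_⟩, subset_union_right⟩
      rw [card_union_of_disjoint, hW.2]
      · omega
      · rw [disjoint_left]
        intro x hx
        have := hW.1 hx
        rwa [mem_compl] at this
    · intro U hU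
      rw [mem_coe, mem_filter] at hU
      exact sdiff_union_of_subset hU.2
    · intro W hW
      rw [mem_coe, mem_powersetCard] at hW
      apply union_sdiff_cancel_right
      rw [disjoint_left]
      intro x hx
      have := hW.1 hx
      rwa [mem_compl] at this
  rw [h, card_powersetCard, card_compl, Fintype.card_fin]

lemma sum_supersets {n : ℕ} (M k : ℕ) (hk : k ≤ M) (H : Finset (Finset (Fin n)))
    (hH : ∀ e ∈ H, e.card = k) (f : Finset (Fin n) → ℝ) :
    ∑ U ∈ univ.powersetCard M, ∑ e ∈ H.filter (fun e => e ⊆ U), f e =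
      ((n - k).choose (M - k) : ℕ) * ∑ e ∈ H, f e := by
  classical
  simp_rw [sum_filter]
  rw [sum_comm, mul_sum]
  apply sum_congr rfl
  intro e he
  rw [← sum_filter, sum_const, nsmul_eq_mul, card_supersets e M (by rw [hH e he]; exact hk),
    hH e he]

lemma choose_id {n M r : ℕ} (hr : r ≤ M) (hM : M ≤ n) :
    (n.choose M : ℝ) * (M.choose r : ℝ) = (n.choose r : ℝ) * ((n - r).choose (M - r) : ℕ) := by
  have := Nat.choose_mul (n := n) (k := M) (s := r) hr
  exact_mod_cast this

lemma choose_id2 {n M r : ℕ} (hr : r + 1 ≤ M) (hM : M ≤ n) :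
    ((n - (r + 1)).choose (M - (r + 1)) : ℝ) * ((n : ℝ) - r) =
      ((n - r).choose (M - r) : ℝ) * ((M : ℝ) - r) := by
  have h := Nat.add_one_mul_choose_eq (n - (r + 1)) (M - (r + 1))
  have e1 : n - (r + 1) + 1 = n - r := by omega
  have e2 : M - (r + 1) + 1 = M - r := by omega
  rw [e1, e2] at h
  have h' : (((n - r) * (n - (r + 1)).choose (M - (r + 1)) : ℕ) : ℝ) =
      (((n - r).choose (M - r) * (M - r) : ℕ) : ℝ) := by rw [h]
  push_cast [Nat.cast_sub (show r ≤ n by omega), Nat.cast_sub (show r ≤ M by omega)] at h'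
  linarith

end Q116.ES
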