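import Pool.Agent.Q116.ES.Main

set_option autoImplicit false

/-!
The asymptotic form of the conjecture of Erdős and Sauer: conclusion.
-/

namespace Q116.ES

open Finset Filter

theorem asym {r p : ℕ} (hr : 2 ≤ r) (hp : r < p) {ε : ℝ} (hε : 0 < ε) :
    ∃ n0 : ℕ, ∀ n, n0 ≤ n → ∀ H : Finset (Finset (Fin n)), (∀ e ∈ H, e.card = r) →
      ∃ P : Finset (Finset (Fin n)), (∀ S ∈ P, S.card = p ∧ S.powersetCard r ⊆ H) ∧
        (∀ S ∈ P, ∀ S' ∈ P, S ≠ S' → Disjoint (S.powersetCard r) (S'.powersetCard r)) ∧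
        (H.card : ℝ) - ((p.choose r : ℝ) - 1) * P.card ≤ alpha n p r + ε * (n : ℝ) ^ r := by
  classical
  set C : ℝ := (p.choose r : ℝ) with hC
  have hC3 : (3 : ℝ) ≤ C := by
    have h1 := choose_ge (r := r) (p := p) (by omega) hp
    have h2 : 3 ≤ p.choose r := by omega
    rw [hC]
    exact_mod_cast h2
  set D : ℝ := (p.choose (r + 1) : ℝ) with hD
  have hD1 : (1 : ℝ) ≤ D := by
    have : 1 ≤ p.choose (r + 1) := Nat.choose_pos (by omega)
    rw [hD]
    exact_mod_cast this
  set δ : ℝ := min (1 / 2) (ε / 4) with hδ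
  have hδ0 : 0 < δ := lt_min (by norm_num) (by positivity)
  have hδ2 : δ ≤ 1 / 2 := min_le_left _ _
  have hδε : δ ≤ ε / 4 := min_le_right _ _
  set η : ℝ := δ / D with hη
  have hη0 : 0 < η := by positivity
  have hDη : D * η = δ := by rw [hη]; field_simp
  set θ : ℝ := ε / (4 * C) with hθ
  have hθ0 : 0 < θ := by positivity
  obtain ⟨M, hM, hMd⟩ := exists_M (r := r) (p := p) (ε / 8) (by positivity)
  obtain ⟨κ, hκ, N0, hpack⟩ := pack (p.choose r) 1 θ hθ0
  set Q : ℝ := (M.choose r : ℝ) / η * ((M : ℝ) - r) / κ with hQ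
  have hMr' : (0 : ℝ) ≤ (M : ℝ) - r := by
    have : (r : ℝ) ≤ M := by
      have : r ≤ M := by omega
      exact_mod_cast this
    linarith
  have hQ0 : 0 ≤ Q := by positivity
  refine ⟨max (M + 1) (max ⌈N0⌉₊ ⌈Q / (ε / 8) + r⌉₊), fun n hn H hH => ?_⟩
  have hnM : M + 1 ≤ n := (le_max_left _ _).trans hn
  have hnN : ⌈N0⌉₊ ≤ n := (le_max_left _ _).trans ((le_max_right _ _).trans hn)
  have hnQ : ⌈Q / (ε / 8) + r⌉₊ ≤ n := (le_max_right _ _).trans ((le_max_right _ _).trans hn)
  have hn1 : (1 : ℝ) ≤ n := by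
    have : 1 ≤ n := by omega
    exact_mod_cast this
  have hnr : (0 : ℝ) < (n : ℝ) - r := by
    have : (r : ℝ) < n := by
      have : r < n := by omega
      exact_mod_cast this
    linarith
  set N : ℝ := (n : ℝ) ^ r with hN
  have hN1 : (1 : ℝ) ≤ N := one_le_pow₀ hn1
  have hnN' : (n : ℝ) ≤ N := le_self_pow₀ hn1 (by omega)
  have hN0 : N0 ≤ N := by
    calc N0 ≤ ⌈N0⌉₊ := Nat.le_ceil _
      _ ≤ n := by exact_mod_cast hnN
      _ ≤ N := hnN'
  have hchoose : (n.choose r : ℝ) ≤ N := by
    rw [hN]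
    exact_mod_cast Nat.choose_le_pow n r
  have hHc : (H.card : ℝ) ≤ N := by
    refine le_trans ?_ hchoose
    have : H.card ≤ ((univ : Finset (Fin n)).powersetCard r).card :=
      card_le_card (fun e he => mem_powersetCard.2 ⟨subset_univ _, hH e he⟩)
    rw [card_powersetCard, card_univ, Fintype.card_fin] at this
    exact_mod_cast this
  have hQn : Q / ((n : ℝ) - r) ≤ ε / 8 := by
    have h1 : Q / (ε / 8) + r ≤ n := (Nat.le_ceil _).trans (by exact_mod_cast hnQ)
    rw [div_le_iff₀ hnr]
    have h2 : Q / (ε / 8) ≤ n - r := by linarith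
    rw [div_le_iff₀ (by positivity)] at h2
    linarith
  -- the value
  set V : ℝ := (1 - δ) / (C - 1) * (H.card - dens r p M * (n.choose r : ℝ) - ε / 8 * N) with hV
  have hC1 : 0 < C - 1 := by linarith
  have h1δ : 0 < 1 - δ := by linarith
  have hd0 : 0 ≤ dens r p M := by unfold dens; positivity
  have hVH : V ≤ H.card := by
    have h1 : H.card - dens r p M * (n.choose r : ℝ) - ε / 8 * N ≤ (H.card : ℝ) := by
      have : 0 ≤ dens r p M * (n.choose r : ℝ) := by positivity
      have : 0 ≤ ε / 8 * N := by positivity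
      linarith
    have h2 : (1 - δ) / (C - 1) ≤ 1 := by rw [div_le_one hC1]; linarith
    have h3 : 0 ≤ (1 - δ) / (C - 1) := by positivity
    calc V ≤ (1 - δ) / (C - 1) * (H.card : ℝ) := mul_le_mul_of_nonneg_left h1 h3
      _ ≤ 1 * (H.card : ℝ) := mul_le_mul_of_nonneg_right h2 (Nat.cast_nonneg _)
      _ = _ := one_mul _
  obtain ⟨P', hP1, hP2⟩ := hpack
    {S : Finset (Fin n) // S.card = p ∧ S.powersetCard r ⊆ H}
    (Finset (Fin n)) (Finset (Fin n)) (fun t => t.1.powersetCard r)
    (fun t => t.1.powersetCard (r + 1)) (fun _ => 1) H N V hN0 hHc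
    (fun t => by rw [card_powersetCard, t.2.1])
    (fun t => by
      have h1 : (t.1.powersetCard r).Nonempty := by
        rw [← card_pos, card_powersetCard, t.2.1]
        exact Nat.choose_pos hp.le
      obtain ⟨e, he⟩ := h1
      exact ⟨e, he, t.2.2 he⟩)
    (fun _ => le_rfl) (fun _ => le_rfl)
    (by
      intro x x' hxx
      by_cases h : r + 1 ≤ (x ∪ x').card
      · right
        obtain ⟨y, hy, hyc⟩ := exists_subset_card_eq h
        refine ⟨y, fun t h1 h2 => ?_⟩
        rw [mem_powersetCard] at h1 h2 ⊢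
        exact ⟨hy.trans (union_subset h1.1 h2.1), hyc⟩
      · left
        rintro t ⟨h1, h2⟩
        rw [mem_powersetCard] at h1 h2
        have h3 : (x ∪ x').card ≤ r := by omega
        have h4 : x = x ∪ x' := eq_of_subset_of_card_le subset_union_left (by rw [h1.2]; exact h3)
        have h5 : x' = x ∪ x' := eq_of_subset_of_card_le subset_union_right (by
          rw [h2.2]; exact h3)
        exact hxx (h4.trans h5.symm))
    (by
      intro z v hz hv hcov
      by_cases hbig : N / κ < ∑ y, v y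
      · rw [div_lt_iff₀ hκ] at hbig
        have h1 : 0 ≤ ∑ x, z x := sum_nonneg (fun x _ => hz x)
        linarith
      · push Not at hbig
        have h1 := cover_lower hr hp H hH M hM (by omega) z v hz hv (by
          intro S hS hSH
          have := hcov ⟨S, hS, hSH⟩
          rw [Nat.cast_one] at this
          exact this) η hη0 (by rw [← hD, hDη]; linarith)
        rw [← hD, hDη, ← hC] at h1
        have h2 : (M.choose r : ℝ) / η * (((M : ℝ) - r) / ((n : ℝ) - r)) * ∑ e, v e ≤
            ε / 8 * N := by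
          calc (M.choose r : ℝ) / η * (((M : ℝ) - r) / ((n : ℝ) - r)) * ∑ e, v e
              ≤ (M.choose r : ℝ) / η * (((M : ℝ) - r) / ((n : ℝ) - r)) * (N / κ) := by gcongr
            _ = Q / ((n : ℝ) - r) * N := by rw [hQ]; field_simp
            _ ≤ _ := mul_le_mul_of_nonneg_right hQn (by linarith)
        have h3 : H.card - dens r p M * (n.choose r : ℝ) - ε / 8 * N ≤
            (C - 1) / (1 - δ) * ∑ e ∈ H, z e := by linarith
        have h4 : V ≤ ∑ e ∈ H, z e := by
          calc V ≤ (1 - δ) / (C - 1) * ((C - 1) / (1 - δ) * ∑ e ∈ H, z e) :=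
                mul_le_mul_of_nonneg_left h3 (by positivity)
            _ = _ := by field_simp
        have h5 : ∑ e ∈ H, z e ≤ ∑ e, z e :=
          sum_le_sum_of_subset_of_nonneg (subset_univ _) (fun e _ _ => hz e)
        have h6 : 0 ≤ κ * ∑ y, v y := mul_nonneg hκ.le (sum_nonneg (fun y _ => hv y))
        linarith)
  refine ⟨P'.image (fun t => t.1), ?_, ?_, ?_⟩
  · intro S hS
    rw [mem_image] at hS
    obtain ⟨t, -, rfl⟩ := hS
    exact t.2
  · intro S hS S' hS' hne
    rw [mem_image] at hS hS'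
    obtain ⟨t, ht, rfl⟩ := hS
    obtain ⟨t', ht', rfl⟩ := hS'
    exact hP1 t ht t' ht' (fun h => hne (by rw [h]))
  · rw [card_image_of_injective _ Subtype.val_injective]
    rw [Nat.cast_one, sum_const, nsmul_eq_mul, mul_one] at hP2
    have h1 : (C - 1) * (V - θ * N) ≤ (C - 1) * (P'.card : ℝ) :=
      mul_le_mul_of_nonneg_left hP2 hC1.le
    have h2 : (C - 1) * V = (1 - δ) * (H.card - dens r p M * (n.choose r : ℝ) - ε / 8 * N) := by
      rw [hV]
      field_simp
    have h3 : (C - 1) * (θ * N) ≤ ε / 4 * N := by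
      have : (C - 1) * θ ≤ ε / 4 := by
        rw [hθ, mul_div_assoc', div_le_iff₀ (by positivity)]
        nlinarith
      calc (C - 1) * (θ * N) = (C - 1) * θ * N := by ring
        _ ≤ _ := mul_le_mul_of_nonneg_right this (by linarith)
    have h4 : dens r p M * (n.choose r : ℝ) ≤ alpha n p r + ε / 8 * N := by
      have h5 : dens r p M ≤ dens r p n + ε / 8 := hMd n (by omega)
      have hpos : (0 : ℝ) < n.choose r := by
        have : 0 < n.choose r := Nat.choose_pos (by omega)
        exact_mod_cast this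
      have h6 : dens r p n * (n.choose r : ℝ) = alpha n p r := by
        unfold dens
        field_simp
      calc dens r p M * (n.choose r : ℝ) ≤ (dens r p n + ε / 8) * (n.choose r : ℝ) :=
            mul_le_mul_of_nonneg_right h5 hpos.le
        _ = alpha n p r + ε / 8 * (n.choose r : ℝ) := by rw [add_mul, h6]
        _ ≤ _ := by
          have : ε / 8 * (n.choose r : ℝ) ≤ ε / 8 * N :=
            mul_le_mul_of_nonneg_left hchoose (by positivity)
          linarith
    have h5 : δ * H.card ≤ ε / 4 * N := by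
      calc δ * (H.card : ℝ) ≤ ε / 4 * H.card := mul_le_mul_of_nonneg_right hδε (Nat.cast_nonneg _)
        _ ≤ _ := mul_le_mul_of_nonneg_left hHc (by positivity)
    have h6 : 0 ≤ dens r p M * (n.choose r : ℝ) := by positivity
    have h7 : 0 ≤ ε / 8 * N := by positivity
    have h8 : (1 - δ) * (dens r p M * (n.choose r : ℝ) + ε / 8 * N) ≤
        dens r p M * (n.choose r : ℝ) + ε / 8 * N := by nlinarith
    have h9 : (1 - δ) * (H.card - dens r p M * (n.choose r : ℝ) - ε / 8 * N) =
        H.card - δ * H.card - (1 - δ) * (dens r p M * (n.choose r : ℝ) + ε / 8 * N) := by ring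
    rw [h9] at h2
    linarith

/-- the extremal numbers are of the order `n ^ r` -/
lemma alpha_lower {r p : ℕ} (hr : 2 ≤ r) (hp : r < p) :
    ∃ c : ℝ, 0 < c ∧ ∃ n1 : ℕ, ∀ n, n1 ≤ n → c * (n : ℝ) ^ r ≤ alpha n p r := by
  have hC := choose_ge (r := r) (p := p) (by omega) hp
  have hC0 : (0 : ℝ) < p.choose r := by
    have : 0 < p.choose r := by omega
    exact_mod_cast this
  refine ⟨1 / (2 ^ r * r.factorial * p.choose r), by positivity, 2 * r, fun n hn => ?_⟩
  obtain ⟨F, hF, hFi, hFc⟩ := exists_indep (V := Fin n) hr hp (univ.powersetCard r)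
    (Subset.refl _)
  have h1 : (F.card : ℝ) ≤ alpha n p r := by
    have := le_alpha (n := n) (p := p) (r := r) (F := F)
      ⟨fun e he => (mem_powersetCard.1 (hF he)).2, indep_Cl.1 hFi⟩
    exact_mod_cast this
  rw [card_powersetCard, card_univ, Fintype.card_fin] at hFc
  have h2 := Nat.pow_le_choose (α := ℝ) r n
  have h3 : (n : ℝ) / 2 ≤ ((n + 1 - r : ℕ) : ℝ) := by
    have : n ≤ 2 * (n + 1 - r) := by omega
    have : (n : ℝ) ≤ 2 * ((n + 1 - r : ℕ) : ℝ) := by exact_mod_cast this
    linarith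
  have h4 : ((n : ℝ) / 2) ^ r / r.factorial ≤ (p.choose r : ℝ) * alpha n p r := by
    calc ((n : ℝ) / 2) ^ r / r.factorial ≤ ((n + 1 - r : ℕ) : ℝ) ^ r / r.factorial := by gcongr
      _ ≤ n.choose r := h2
      _ ≤ _ := hFc
      _ ≤ _ := by gcongr
  calc 1 / (2 ^ r * r.factorial * (p.choose r : ℝ)) * (n : ℝ) ^ r
      = ((n : ℝ) / 2) ^ r / r.factorial / p.choose r := by
        rw [div_pow]
        field_simp
    _ ≤ _ := by
        rw [div_le_iff₀ hC0]
        linarith

end Q116.ES
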