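import Pool.Agent.Q116.ES.Asym
import Pool.Agent.H249R2.PM.Farkas

set_option autoImplicit false

/-!
Partitions from packings; exact duality; the fractional form.
-/

namespace Q116.ES

open Finset

/-- exact duality for packings -/
lemma lp_exact {T X : Type} [Fintype T] [Fintype X] [DecidableEq X] (A : T → Finset X)
    (hne : ∀ t, (A t).Nonempty) (V : ℝ)
    (hcov : ∀ z : X → ℝ, (∀ x, 0 ≤ z x) → (∀ t, 1 ≤ ∑ x ∈ A t, z x) → V ≤ ∑ x, z x) :
    ∃ w : T → ℝ, (∀ t, 0 ≤ w t) ∧ (∀ x, ∑ t with x ∈ A t, w t ≤ 1) ∧ V ≤ ∑ t, w t := by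
  classical
  let ℓ : (X ⊕ T) → ((X → ℝ) →ₗ[ℝ] ℝ) := Sum.elim
    (fun x => -(LinearMap.proj x)) (fun t => -(∑ x ∈ A t, LinearMap.proj x))
  let b : (X ⊕ T) → ℝ := Sum.elim (fun _ => 0) (fun _ => -1)
  let f : (X → ℝ) →ₗ[ℝ] ℝ := -(∑ x, LinearMap.proj x)
  have hl1 : ∀ (x : X) (y : X → ℝ), ℓ (Sum.inl x) y = - y x := fun x y => rfl
  have hl2 : ∀ (t : T) (y : X → ℝ), ℓ (Sum.inr t) y = - ∑ x ∈ A t, y x := by
    intro t y
    simp [ℓ]
  have hf : ∀ y : X → ℝ, f y = - ∑ x, y x := by
    intro y
    simp [f]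
  obtain ⟨w0, w, hw0, hw, hid⟩ := Pool.Agent.H249R2.PM.farkas_fin ℓ b f (-V) (fun _ => 1)
    (by
      rintro (x | t)
      · rw [hl1]; simp [b]
      · rw [hl2]
        simp only [b, Sum.elim_inr, sum_const, nsmul_eq_mul, mul_one, neg_le_neg_iff]
        have := card_pos.2 (hne t)
        exact_mod_cast this)
    (by
      intro y hy
      rw [hf]
      have := hcov y (fun x => by
        have := hy (Sum.inl x)
        rw [hl1] at this
        simp only [b, Sum.elim_inl] at this
        linarith) (fun t => by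
        have := hy (Sum.inr t)
        rw [hl2] at this
        simp only [b, Sum.elim_inr] at this
        linarith)
      linarith)
  have hid' : ∀ y : X → ℝ, -V + ∑ x, y x = w0 + (∑ x, w (Sum.inl x) * y x +
      ∑ t, w (Sum.inr t) * (-1 + ∑ x ∈ A t, y x)) := by
    intro y
    have h := hid y
    rw [hf, Fintype.sum_sum_type] at h
    simp only [hl1, hl2, b, Sum.elim_inl, Sum.elim_inr, zero_sub, neg_neg, sub_neg_eq_add,
      zero_add] at h
    exact h
  have h0 := hid' (fun _ => 0)
  simp only [sum_const_zero, mul_zero, add_zero, mul_neg, mul_one, sum_neg_distrib,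
    zero_add] at h0
  refine ⟨fun t => w (Sum.inr t), fun t => hw _, ?_, by linarith⟩
  intro x
  have h1 := hid' (fun y => if y = x then 1 else 0)
  simp only [mul_ite, mul_one, mul_zero, sum_ite_eq', mem_univ, if_true] at h1
  simp_rw [mul_add, sum_add_distrib] at h1
  simp only [mul_neg, mul_one, sum_neg_distrib, mul_ite, mul_zero] at h1
  rw [← sum_filter] at h1
  have := hw (Sum.inl x)
  linarith

/-- from a packing to a partition -/
lemma exists_finpartition {n r p : ℕ} (hp : r < p) (H : Finset (Finset (Fin n)))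
    (P : Finset (Finset (Fin n)))
    (hP1 : ∀ S ∈ P, S.card = p ∧ S.powersetCard r ⊆ H)
    (hP2 : ∀ S ∈ P, ∀ S' ∈ P, S ≠ S' → Disjoint (S.powersetCard r) (S'.powersetCard r)) :
    ∃ Q : Finpartition H, (∀ B ∈ Q.parts, B.card = 1 ∨
        ∃ S : Finset (Fin n), S.card = p ∧ B = S.powersetCard r) ∧
      (Q.parts.card : ℝ) ≤ (H.card : ℝ) - ((p.choose r : ℝ) - 1) * P.card := by
  classical
  set U : Finset (Finset (Fin n)) := P.biUnion (fun S => S.powersetCard r) with hU
  have hUH : U ⊆ H := by
    intro e he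
    rw [hU, mem_biUnion] at he
    obtain ⟨S, hS, he⟩ := he
    exact (hP1 S hS).2 he
  have hUc : U.card = P.card * p.choose r := by
    rw [hU, card_biUnion (fun S hS S' hS' hne => hP2 S hS S' hS' hne)]
    rw [sum_congr rfl (g := fun _ => p.choose r) (fun S hS => by
      rw [card_powersetCard, (hP1 S hS).1]), sum_const, smul_eq_mul]
  set parts : Finset (Finset (Finset (Fin n))) :=
    P.image (fun S => S.powersetCard r) ∪ (H \ U).image (fun e => {e}) with hparts
  have hmem : ∀ B ∈ parts, (∃ S ∈ P, B = S.powersetCard r) ∨ ∃ e ∈ H \ U, B = {e} := by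
    intro B hB
    rw [hparts, mem_union, mem_image, mem_image] at hB
    rcases hB with ⟨S, hS, rfl⟩ | ⟨e, he, rfl⟩
    · exact Or.inl ⟨S, hS, rfl⟩
    · exact Or.inr ⟨e, he, rfl⟩
  have hdis : (parts : Set (Finset (Finset (Fin n)))).PairwiseDisjoint id := by
    intro B hB B' hB' hne
    rw [Function.onFun, id, id]
    rcases hmem B hB with ⟨S, hS, rfl⟩ | ⟨e, he, rfl⟩ <;>
      rcases hmem B' hB' with ⟨S', hS', rfl⟩ | ⟨e', he', rfl⟩
    · exact hP2 S hS S' hS' (fun h => hne (by rw [h]))
    · rw [disjoint_singleton_right]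
      intro h
      rw [mem_sdiff] at he'
      exact he'.2 (by rw [hU, mem_biUnion]; exact ⟨S, hS, h⟩)
    · rw [disjoint_singleton_left]
      intro h
      rw [mem_sdiff] at he
      exact he.2 (by rw [hU, mem_biUnion]; exact ⟨S', hS', h⟩)
    · rw [disjoint_singleton]
      intro h
      exact hne (by rw [h])
  let Q : Finpartition H :=
    { parts := parts
      supIndep := (supIndep_iff_pairwiseDisjoint).2 hdis
      sup_parts := by
        ext e
        rw [mem_sup]
        constructor
        · rintro ⟨B, hB, he⟩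
          rcases hmem B hB with ⟨S, hS, rfl⟩ | ⟨e', he', rfl⟩
          · exact (hP1 S hS).2 he
          · rw [id, mem_singleton] at he
            rw [he]
            exact (mem_sdiff.1 he').1
        · intro he
          by_cases h : e ∈ U
          · rw [hU, mem_biUnion] at h
            obtain ⟨S, hS, heS⟩ := h
            exact ⟨S.powersetCard r, mem_union_left _ (mem_image_of_mem _ hS), heS⟩
          · exact ⟨{e}, mem_union_right _ (mem_image_of_mem _ (mem_sdiff.2 ⟨he, h⟩)),
              mem_singleton_self e⟩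
      bot_notMem := by
        intro h
        rcases hmem _ h with ⟨S, hS, hE⟩ | ⟨e, he, hE⟩
        · have h1 : (S.powersetCard r).card = 0 := by
            rw [← hE]; rfl
          rw [card_powersetCard, (hP1 S hS).1] at h1
          have := Nat.choose_pos hp.le
          omega
        · exact absurd hE.symm (singleton_ne_empty e) }
  refine ⟨Q, ?_, ?_⟩
  · intro B hB
    rcases hmem B hB with ⟨S, hS, rfl⟩ | ⟨e, he, rfl⟩
    · exact Or.inr ⟨S, (hP1 S hS).1, rfl⟩
    · exact Or.inl (card_singleton e)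
  · have h1 : Q.parts.card ≤ P.card + (H.card - U.card) := by
      show parts.card ≤ _
      refine (card_union_le _ _).trans ?_
      have h2 : ((H \ U).image (fun e => ({e} : Finset (Finset (Fin n))))).card ≤
          H.card - U.card := by
        refine card_image_le.trans ?_
        rw [card_sdiff_of_subset hUH]
      have h3 : (P.image (fun S => S.powersetCard r)).card ≤ P.card := card_image_le
      omega
    have h2 : U.card ≤ H.card := card_le_card hUH
    have h3 : (Q.parts.card : ℝ) ≤ P.card + ((H.card : ℝ) - U.card) := by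
      have : (Q.parts.card : ℝ) ≤ ((P.card + (H.card - U.card) : ℕ) : ℝ) := by exact_mod_cast h1
      rwa [Nat.cast_add, Nat.cast_sub h2] at this
    rw [hUc] at h3
    push_cast at h3
    linarith

/-- **The asymptotic Erdős–Sauer conjecture.** -/
theorem asym_part {r p : ℕ} (hr : 2 ≤ r) (hp : r < p) {ε : ℝ} (hε : 0 < ε) :
    ∃ n0 : ℕ, ∀ n, n0 ≤ n → ∀ H : Finset (Finset (Fin n)), (∀ e ∈ H, e.card = r) →
      ∃ Q : Finpartition H, (∀ B ∈ Q.parts, B.card = 1 ∨
          ∃ S : Finset (Fin n), S.card = p ∧ B = S.powersetCard r) ∧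
        (Q.parts.card : ℝ) ≤ (1 + ε) * alpha n p r := by
  obtain ⟨c, hc, n1, hn1⟩ := alpha_lower (r := r) (p := p) hr hp
  obtain ⟨n0, hn0⟩ := asym hr hp (ε := ε * c) (by positivity)
  refine ⟨max n0 n1, fun n hn H hH => ?_⟩
  obtain ⟨P, hP1, hP2, hP3⟩ := hn0 n ((le_max_left _ _).trans hn) H hH
  obtain ⟨Q, hQ1, hQ2⟩ := exists_finpartition hp H P hP1 hP2
  refine ⟨Q, hQ1, hQ2.trans (hP3.trans ?_)⟩
  have h1 := hn1 n ((le_max_right _ _).trans hn)
  have h2 := mul_le_mul_of_nonneg_left h1 hε.le
  linarith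

/-- **The fractional Erdős–Sauer conjecture.** -/
theorem frac_part {n r p : ℕ} (hr : 2 ≤ r) (hp : r < p) (H : Finset (Finset (Fin n)))
    (hH : ∀ e ∈ H, e.card = r) :
    ∃ x w : Finset (Fin n) → ℝ, (∀ e, 0 ≤ x e) ∧ (∀ S, 0 ≤ w S) ∧
      (∀ S, w S ≠ 0 → S.card = p ∧ S.powersetCard r ⊆ H) ∧
      (∀ e ∈ H, x e + ∑ S with e ⊆ S, w S = 1) ∧
      ∃ F ⊆ H, (∀ S : Finset (Fin n), S.card = p → ¬ S.powersetCard r ⊆ F) ∧
        ∑ e ∈ H, x e + ∑ S, w S ≤ F.card := by
  classical
  set C : ℝ := (p.choose r : ℝ) with hC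
  have hC3 : (3 : ℝ) ≤ C := by
    have h1 := choose_ge (r := r) (p := p) (by omega) hp
    have h2 : 3 ≤ p.choose r := by omega
    rw [hC]
    exact_mod_cast h2
  have hC1 : 0 < C - 1 := by linarith
  -- the largest clique-free subfamily
  obtain ⟨F, hF, hFmax⟩ := exists_max_image ((H.powerset).filter fun F =>
      ∀ S : Finset (Fin n), S.card = p → ¬ S.powersetCard r ⊆ F) card ⟨∅, by
    rw [mem_filter, mem_powerset]
    refine ⟨empty_subset _, fun S hS h => ?_⟩
    have h1 := card_le_card h
    rw [card_powersetCard, hS, card_empty] at h1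
    have := Nat.choose_pos hp.le
    omega⟩
  rw [mem_filter, mem_powerset] at hF
  set A : {S : Finset (Fin n) // S.card = p ∧ S.powersetCard r ⊆ H} → Finset (Finset (Fin n)) :=
    fun t => t.1.powersetCard r with hA
  have hAne : ∀ t, (A t).Nonempty := fun t => by
    rw [← card_pos, hA]
    simp only [card_powersetCard, t.2.1]
    exact Nat.choose_pos hp.le
  obtain ⟨w, hw0, hw1, hwV⟩ := lp_exact A hAne (((H.card : ℝ) - F.card) / (C - 1)) (by
    intro z hz hcov
    obtain ⟨F', hF'H, hF'f, hF'c⟩ := cover_bound hr hp H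
      (fun e he => mem_powersetCard.2 ⟨subset_univ _, hH e he⟩) z (fun e _ => hz e)
      (fun S hS hSH => hcov ⟨S, hS, hSH⟩)
    have h1 : (F'.card : ℝ) ≤ F.card := by
      have := hFmax F' (by rw [mem_filter, mem_powerset]; exact ⟨hF'H, hF'f⟩)
      exact_mod_cast this
    have h2 : ∑ e ∈ H, z e ≤ ∑ e, z e :=
      sum_le_sum_of_subset_of_nonneg (subset_univ _) (fun e _ _ => hz e)
    rw [div_le_iff₀ hC1]
    have h3 := mul_le_mul_of_nonneg_left h2 hC1.le
    rw [← hC] at hF'c
    linarith)
  -- extension by zero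
  let w' : Finset (Fin n) → ℝ := fun S =>
    if h : S.card = p ∧ S.powersetCard r ⊆ H then w ⟨S, h⟩ else 0
  have hw' : ∀ t : {S : Finset (Fin n) // S.card = p ∧ S.powersetCard r ⊆ H}, w' t.1 = w t :=
    fun t => by simp only [w', dif_pos t.2]
  have hw'0 : ∀ S, 0 ≤ w' S := fun S => by
    simp only [w']
    split_ifs
    · exact hw0 _
    · exact le_rfl
  have hsum : ∀ (Pr : Finset (Fin n) → Prop) [DecidablePred Pr], ∑ S with Pr S, w' S =
      ∑ t with Pr (t : {S : Finset (Fin n) // S.card = p ∧ S.powersetCard r ⊆ H}).1, w t := by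
    intro Pr _
    rw [sum_filter, sum_filter]
    calc ∑ S, (if Pr S then w' S else 0)
        = ∑ S with (S.card = p ∧ S.powersetCard r ⊆ H), (if Pr S then w' S else 0) := by
          symm
          apply sum_filter_of_ne
          intro S _ hne
          by_contra h
          apply hne
          have : w' S = 0 := by simp only [w', dif_neg h]
          rw [this, ite_self]
      _ = ∑ t : {S : Finset (Fin n) // S.card = p ∧ S.powersetCard r ⊆ H},
            (if Pr t.1 then w' t.1 else 0) := sum_subtype _ (fun S => by simp) _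
      _ = _ := by
          apply sum_congr rfl
          intro t _
          rw [hw']
  have hload : ∀ e ∈ H, ∑ S with e ⊆ S, w' S ≤ 1 := by
    intro e he
    rw [hsum (fun S => e ⊆ S)]
    refine le_trans (le_of_eq ?_) (hw1 e)
    apply sum_congr _ (fun _ _ => rfl)
    apply filter_congr
    intro t _
    rw [hA]
    simp only [mem_powersetCard, hH e he, and_true]
  refine ⟨fun e => if e ∈ H then 1 - ∑ S with e ⊆ S, w' S else 0, w', ?_, hw'0, ?_, ?_, F,
    hF.1, hF.2, ?_⟩
  · intro e
    by_cases he : e ∈ H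
    · simp only [if_pos he]
      have := hload e he
      linarith
    · simp only [if_neg he]
      exact le_rfl
  · intro S hS
    by_contra h
    exact hS (by simp only [w', dif_neg h])
  · intro e he
    simp only [if_pos he]
    ring
  · have h1 : ∑ e ∈ H, (if e ∈ H then 1 - ∑ S with e ⊆ S, w' S else 0) =
        H.card - C * ∑ t, w t := by
      rw [sum_congr rfl (g := fun e => 1 - ∑ S with e ⊆ S, w' S) (fun e he => if_pos he),
        sum_sub_distrib, sum_const, nsmul_eq_mul, mul_one]
      congr 1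
      rw [sum_congr rfl (fun e _ => hsum (fun S => e ⊆ S))]
      simp_rw [sum_filter]
      rw [sum_comm, mul_sum]
      apply sum_congr rfl
      intro t _
      rw [← sum_filter, sum_const, nsmul_eq_mul]
      congr 1
      have : (H.filter fun e => e ⊆ t.1) = t.1.powersetCard r := by
        ext e
        rw [mem_filter, mem_powersetCard]
        constructor
        · rintro ⟨h1, h2⟩
          exact ⟨h2, hH e h1⟩
        · rintro ⟨h1, h2⟩
          exact ⟨t.2.2 (mem_powersetCard.2 ⟨h1, h2⟩), h1⟩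
      rw [this, card_powersetCard, t.2.1]
    have h2 : ∑ S, w' S = ∑ t, w t := by
      have := hsum (fun _ => True)
      simpa using this
    rw [h1, h2]
    rw [div_le_iff₀ hC1] at hwV
    linarith

/-- from a packing of `(r + 1)`-sets to a decomposition -/
lemma exists_decomp {n r : ℕ} (H : Finset (Finset (Fin n))) (hH : ∀ e ∈ H, e.card = r)
    (P : Finset (Finset (Fin n)))
    (hP1 : ∀ S ∈ P, S.card = r + 1 ∧ S.powersetCard r ⊆ H)
    (hP2 : ∀ S ∈ P, ∀ S' ∈ P, S ≠ S' → Disjoint (S.powersetCard r) (S'.powersetCard r)) :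
    ∃ D : Finset (Finset (Fin n)), (∀ S ∈ D, S.card = r ∨ S.card = r + 1) ∧
      (∀ S ∈ D, ∀ S' ∈ D, S ≠ S' → Disjoint (S.powersetCard r) (S'.powersetCard r)) ∧
      D.biUnion (fun S => S.powersetCard r) = H ∧
      (D.card : ℝ) ≤ (H.card : ℝ) - r * P.card := by
  classical
  set U : Finset (Finset (Fin n)) := P.biUnion (fun S => S.powersetCard r) with hU
  have hUH : U ⊆ H := by
    intro e he
    rw [hU, mem_biUnion] at he
    obtain ⟨S, hS, he⟩ := he
    exact (hP1 S hS).2 he
  have hUc : U.card = P.card * (r + 1) := by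
    rw [hU, card_biUnion (fun S hS S' hS' hne => hP2 S hS S' hS' hne)]
    rw [sum_congr rfl (g := fun _ => r + 1) (fun S hS => by
      rw [card_powersetCard, (hP1 S hS).1, Nat.choose_succ_self_right]), sum_const, smul_eq_mul]
  have hself : ∀ e : Finset (Fin n), e.card = r → e.powersetCard r = {e} := by
    intro e he
    rw [← he, powersetCard_self]
  refine ⟨P ∪ (H \ U), ?_, ?_, ?_, ?_⟩
  · intro S hS
    rw [mem_union] at hS
    rcases hS with hS | hS
    · exact Or.inr (hP1 S hS).1
    · exact Or.inl (hH S (mem_sdiff.1 hS).1)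
  · intro S hS S' hS' hne
    rw [mem_union] at hS hS'
    rcases hS with hS | hS <;> rcases hS' with hS' | hS'
    · exact hP2 S hS S' hS' hne
    · rw [mem_sdiff] at hS'
      rw [hself S' (hH S' hS'.1), disjoint_singleton_right]
      intro h
      exact hS'.2 (by rw [hU, mem_biUnion]; exact ⟨S, hS, h⟩)
    · rw [mem_sdiff] at hS
      rw [hself S (hH S hS.1), disjoint_singleton_left]
      intro h
      exact hS.2 (by rw [hU, mem_biUnion]; exact ⟨S', hS', h⟩)
    · rw [hself S (hH S (mem_sdiff.1 hS).1), hself S' (hH S' (mem_sdiff.1 hS').1),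
        disjoint_singleton]
      exact hne
  · ext e
    rw [mem_biUnion]
    constructor
    · rintro ⟨S, hS, he⟩
      rw [mem_union] at hS
      rcases hS with hS | hS
      · exact (hP1 S hS).2 he
      · rw [hself S (hH S (mem_sdiff.1 hS).1), mem_singleton] at he
        rw [he]
        exact (mem_sdiff.1 hS).1
    · intro he
      by_cases h : e ∈ U
      · rw [hU, mem_biUnion] at h
        obtain ⟨S, hS, heS⟩ := h
        exact ⟨S, mem_union_left _ hS, heS⟩
      · refine ⟨e, mem_union_right _ (mem_sdiff.2 ⟨he, h⟩), ?_⟩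
        rw [hself e (hH e he), mem_singleton]
  · have h1 : (P ∪ (H \ U)).card ≤ P.card + (H.card - U.card) := by
      refine (card_union_le _ _).trans ?_
      rw [card_sdiff_of_subset hUH]
    have h2 : U.card ≤ H.card := card_le_card hUH
    have h3 : ((P ∪ (H \ U)).card : ℝ) ≤ P.card + ((H.card : ℝ) - U.card) := by
      have : ((P ∪ (H \ U)).card : ℝ) ≤ ((P.card + (H.card - U.card) : ℕ) : ℝ) := by
        exact_mod_cast h1
      rwa [Nat.cast_add, Nat.cast_sub h2] at this
    rw [hUc] at h3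
    push_cast at h3
    linarith

theorem asym_decomp {r : ℕ} (hr : 2 ≤ r) {ε : ℝ} (hε : 0 < ε) :
    ∃ n0 : ℕ, ∀ n, n0 ≤ n → ∀ H : Finset (Finset (Fin n)), (∀ e ∈ H, e.card = r) →
      ∃ D : Finset (Finset (Fin n)), (∀ S ∈ D, S.card = r ∨ S.card = r + 1) ∧
        (∀ S ∈ D, ∀ S' ∈ D, S ≠ S' → Disjoint (S.powersetCard r) (S'.powersetCard r)) ∧
        D.biUnion (fun S => S.powersetCard r) = H ∧
        (D.card : ℝ) ≤ (1 + ε) * alpha n (r + 1) r := by
  obtain ⟨c, hc, n1, hn1⟩ := alpha_lower (r := r) (p := r + 1) hr (Nat.lt_succ_self r)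
  obtain ⟨n0, hn0⟩ := asym hr (Nat.lt_succ_self r) (ε := ε * c) (by positivity)
  refine ⟨max n0 n1, fun n hn H hH => ?_⟩
  obtain ⟨P, hP1, hP2, hP3⟩ := hn0 n ((le_max_left _ _).trans hn) H hH
  obtain ⟨D, hD1, hD2, hD3, hD4⟩ := exists_decomp H hH P hP1 hP2
  refine ⟨D, hD1, hD2, hD3, hD4.trans ?_⟩
  have h1 := hn1 n ((le_max_right _ _).trans hn)
  have h2 := mul_le_mul_of_nonneg_left h1 hε.le
  have h3 : ((r + 1).choose r : ℝ) - 1 = r := by
    rw [Nat.choose_succ_self_right]
    push_cast
    ring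
  rw [Nat.succ_eq_add_one, h3] at hP3
  linarith

end Q116.ES
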