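import Mathlib

set_option autoImplicit false

/-!
Fractional covers and independent sets (the argument of Krivelevich for triangles).
-/

namespace Q116.ES

open Finset

variable {ε : Type*} [DecidableEq ε]

/-- no member of the family `T` is contained in `E` -/
def Indep (T : Finset (Finset ε)) (E : Finset ε) : Prop := ∀ t ∈ T, ¬ t ⊆ E

/-- If every subset of `E0` contains an independent set of at least `1 / C` of its size and the
members of `T` have size `C`, then every subset `E` of `E0` contains an independent set of size at
least `|E| - (C - 1) ∑ z` for every fractional cover `z`. -/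
theorem frac_cover (T : Finset (Finset ε)) (C : ℕ) (hC : 2 ≤ C) (hT : ∀ t ∈ T, t.card = C)
    (E0 : Finset ε)
    (hind : ∀ E ⊆ E0, ∃ F ⊆ E, Indep T F ∧ (E.card : ℝ) ≤ C * F.card) :
    ∀ (N : ℕ) (E : Finset ε), E.card = N → E ⊆ E0 → ∀ z : ε → ℝ, (∀ e ∈ E, 0 ≤ z e) →
      (∀ t ∈ T, t ⊆ E → 1 ≤ ∑ e ∈ t, z e) →
      ∃ F ⊆ E, Indep T F ∧ (E.card : ℝ) - (C - 1) * ∑ e ∈ E, z e ≤ F.card := by
  have hC' : (2 : ℝ) ≤ C := by exact_mod_cast hC
  have hC1 : (0 : ℝ) < (C : ℝ) - 1 := by linarith
  intro N
  induction N using Nat.strong_induction_on with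
  | _ N ih =>
    intro E hEN hE0
    -- the case of a zero
    have hzero : ∀ (z : ε → ℝ) (e0 : ε), e0 ∈ E → z e0 = 0 → (∀ e ∈ E, 0 ≤ z e) →
        (∀ t ∈ T, t ⊆ E → 1 ≤ ∑ e ∈ t, z e) →
        ∃ F ⊆ E, Indep T F ∧ (E.card : ℝ) - (C - 1) * ∑ e ∈ E, z e ≤ F.card := by
      intro z e0 he0 hz0 hz ht
      set R := E.filter (fun e => 1 ≤ (C - 1) * z e) with hR
      have he0R : e0 ∉ R := by
        rw [hR, mem_filter]
        rintro ⟨-, h⟩
        rw [hz0] at h
        linarith
      set E1 := (E \ R).erase e0 with hE1
      have he0E1 : e0 ∈ E \ R := mem_sdiff.2 ⟨he0, he0R⟩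
      have hE1E : E1 ⊆ E := (erase_subset _ _).trans sdiff_subset
      have hlt : E1.card < N := by
        rw [← hEN]
        apply card_lt_card
        refine ⟨hE1E, fun h => ?_⟩
        have := h he0
        rw [hE1, mem_erase] at this
        exact this.1 rfl
      obtain ⟨F, hF, hFi, hFc⟩ := ih E1.card hlt E1 rfl (hE1E.trans hE0) z
        (fun e he => hz e (hE1E he)) (fun t h1 h2 => ht t h1 (h2.trans hE1E))
      have he0F : e0 ∉ F := fun h => by
        have := hF h
        rw [hE1, mem_erase] at this
        exact this.1 rfl
      refine ⟨insert e0 F, ?_, ?_, ?_⟩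
      · intro x hx
        rw [mem_insert] at hx
        rcases hx with rfl | hx
        · exact he0
        · exact hE1E (hF hx)
      · intro t htT htF
        by_cases hmem : e0 ∈ t
        · have htE : t ⊆ E := htF.trans (by
            intro x hx
            rw [mem_insert] at hx
            rcases hx with rfl | hx
            · exact he0
            · exact hE1E (hF hx))
          have h1 := ht t htT htE
          rw [← add_sum_erase t z hmem, hz0, zero_add] at h1
          have hc : (t.erase e0).card = C - 1 := by rw [card_erase_of_mem hmem, hT t htT]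
          have h2 : ∀ e ∈ t.erase e0, (C - 1) * z e < 1 := by
            intro e he
            rw [mem_erase] at he
            have heF := htF he.2
            rw [mem_insert] at heF
            rcases heF with h | h
            · exact absurd h he.1
            · have := hF h
              rw [hE1, mem_erase, mem_sdiff] at this
              by_contra hcon
              push Not at hcon
              exact this.2.2 (by rw [hR, mem_filter]; exact ⟨this.2.1, hcon⟩)
          have hne : (t.erase e0).Nonempty := by
            rw [← card_pos, hc]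
            omega
          have h3 : ∑ e ∈ t.erase e0, (C - 1) * z e < ∑ e ∈ t.erase e0, (1 : ℝ) :=
            sum_lt_sum_of_nonempty hne h2
          rw [← mul_sum, sum_const, hc, nsmul_eq_mul, mul_one, Nat.cast_sub (by omega),
            Nat.cast_one] at h3
          nlinarith
        · exact hFi t htT (fun x hx => by
            have := htF hx
            rw [mem_insert] at this
            rcases this with h | h
            · exact absurd (h ▸ hx) hmem
            · exact h)
      · rw [card_insert_of_notMem he0F]
        have h1 : E1.card + 1 = (E \ R).card := by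
          rw [hE1, card_erase_of_mem he0E1]
          have : 0 < (E \ R).card := card_pos.2 ⟨e0, he0E1⟩
          omega
        have h2 : (E \ R).card + R.card = E.card :=
          card_sdiff_add_card_eq_card (filter_subset _ _)
        have h3 : ∑ e ∈ E, z e = ∑ e ∈ E1, z e + ∑ e ∈ R, z e := by
          rw [← sum_sdiff (filter_subset (fun e => 1 ≤ ((C : ℝ) - 1) * z e) E), ← hR, hE1,
            sum_erase _ hz0]
        have h4 : (R.card : ℝ) ≤ (C - 1) * ∑ e ∈ R, z e := by
          rw [mul_sum]
          calc (R.card : ℝ) = ∑ e ∈ R, (1 : ℝ) := by simp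
            _ ≤ _ := sum_le_sum (fun e he => (mem_filter.1 he).2)
        have h5 : (E.card : ℝ) = E1.card + 1 + R.card := by
          have : E.card = E1.card + 1 + R.card := by omega
          rw [this]
          push_cast
          ring
        rw [h3, h5]
        push_cast
        nlinarith
    intro z hz ht
    by_cases h0 : ∃ e0 ∈ E, z e0 = 0
    · obtain ⟨e0, he0, hz0⟩ := h0
      exact hzero z e0 he0 hz0 hz ht
    push Not at h0
    by_cases hbig : (E.card : ℝ) ≤ C * ∑ e ∈ E, z e
    · obtain ⟨F, hF, hFi, hFc⟩ := hind E hE0
      refine ⟨F, hF, hFi, ?_⟩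
      have hCpos : (0 : ℝ) < C := by linarith
      have h1 : (E.card : ℝ) - (C - 1) * ∑ e ∈ E, z e ≤ E.card / C := by
        have : (C - 1) * (E.card / C : ℝ) ≤ (C - 1) * ∑ e ∈ E, z e := by
          apply mul_le_mul_of_nonneg_left _ hC1.le
          rw [div_le_iff₀ hCpos]
          linarith
        have h2 : (C - 1) * (E.card / C : ℝ) = E.card - E.card / C := by
          field_simp
        linarith
      refine h1.trans ?_
      rw [div_le_iff₀ hCpos]
      linarith
    push Not at hbig
    have hCpos : (0 : ℝ) < C := by linarith
    have hne : E.Nonempty := by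
      rw [nonempty_iff_ne_empty]
      rintro rfl
      simp at hbig
    obtain ⟨e0, he0, hmin⟩ := exists_min_image E z hne
    have hpos : 0 < z e0 := lt_of_le_of_ne (hz e0 he0) (Ne.symm (h0 e0 he0))
    have hlt : C * z e0 < 1 := by
      by_contra hcon
      push Not at hcon
      have : ∑ e ∈ E, (1 : ℝ) ≤ ∑ e ∈ E, C * z e := by
        apply sum_le_sum
        intro e he
        have := hmin e he
        nlinarith
      rw [sum_const, nsmul_eq_mul, mul_one, ← mul_sum] at this
      linarith
    set t := z e0 / (1 / C - z e0) with htd
    have hden : 0 < 1 / (C : ℝ) - z e0 := by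
      rw [sub_pos, lt_div_iff₀ hCpos]
      linarith
    have ht0 : 0 < t := div_pos hpos hden
    have hte : t * (1 / C - z e0) = z e0 := by rw [htd]; exact div_mul_cancel₀ _ hden.ne'
    have hz' : ∀ e ∈ E, 0 ≤ (1 + t) * z e - t / C := by
      intro e he
      have h1 := hmin e he
      have h2 : (1 + t) * z e0 - t / C = 0 := by
        have : t / C = t * (1 / C) := by ring
        rw [this]
        linarith
      nlinarith
    obtain ⟨F, hF, hFi, hFc⟩ := hzero (fun e => (1 + t) * z e - t / C) e0 he0 (by
        have : t / C = t * (1 / C) := by ring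
        simp only [this]
        linarith) hz' (by
        intro s hs hsE
        rw [sum_sub_distrib, ← mul_sum, sum_const, hT s hs, nsmul_eq_mul]
        have h1 := ht s hs hsE
        have h2 : (C : ℝ) * (t / C) = t := by field_simp
        rw [h2]
        nlinarith)
    refine ⟨F, hF, hFi, le_trans ?_ hFc⟩
    rw [sum_sub_distrib, ← mul_sum, sum_const, nsmul_eq_mul]
    have h1 : (1 + t) * ∑ e ∈ E, z e - E.card * (t / C) ≤ ∑ e ∈ E, z e := by
      have : t * ∑ e ∈ E, z e ≤ E.card * (t / C) := by
        have h2 : (E.card : ℝ) * (t / C) = t * (E.card / C) := by ring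
        rw [h2]
        apply mul_le_mul_of_nonneg_left _ ht0.le
        rw [le_div_iff₀ hCpos]
        linarith
      nlinarith
    have := mul_le_mul_of_nonneg_left h1 hC1.le
    linarith

end Q116.ES
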