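import Pool.Agent.Helper166.TuzaC

set_option autoImplicit false

/-!
Fractional packings of weighted tiles with spread constraints, from lower bounds for covers.
-/

namespace Q116.ES

open Finset

lemma lp_part {T X Y : Type} [Fintype T] [Fintype X] [Fintype Y] [DecidableEq X] [DecidableEq Y]
    (A : T → Finset X) (B : T → Finset Y) (val : T → ℕ) (X0 : Finset X) (N V κ ε : ℝ) (J : ℕ)
    (hκ : 0 < κ) (hε : 0 < ε) (hεκ : ε ≤ κ) (hε1 : ε ≤ 1)
    (hN : (X0.card : ℝ) ≤ N) (hX0 : ∀ t, ∃ x ∈ A t, x ∈ X0)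
    (hvJ : ∀ t, val t ≤ J) (hv1 : ∀ t, 1 ≤ val t)
    (hcov : ∀ (z : X → ℝ) (v : Y → ℝ), (∀ x, 0 ≤ z x) → (∀ y, 0 ≤ v y) →
        (∀ t, (val t : ℝ) ≤ ∑ x ∈ A t, z x + ∑ y ∈ B t, v y) → V ≤ ∑ x, z x + κ * ∑ y, v y) :
    ∃ w : T → ℝ, (∀ t, 0 ≤ w t) ∧ (∀ x, ∑ t with x ∈ A t, w t ≤ 1) ∧
      (∀ y, ∑ t with y ∈ B t, w t ≤ 2 * κ) ∧
      V - ε - ε * (J * N) ≤ ∑ t, (val t : ℝ) * w t := by
  classical
  have hval : ∀ t, (0 : ℝ) < val t := fun t => by
    have := hv1 t
    exact_mod_cast this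
  let AA : (X ⊕ Y) → T → ℝ := fun p t => Sum.elim (fun x => if x ∈ A t then (1 : ℝ) / val t else 0)
    (fun y => if y ∈ B t then (1 : ℝ) / val t else 0) p
  have hAA : ∀ p t, 0 ≤ AA p t := by
    rintro (x | y) t
    · simp only [AA, Sum.elim_inl]
      split_ifs
      · exact div_nonneg zero_le_one (hval t).le
      · exact le_rfl
    · simp only [AA, Sum.elim_inr]
      split_ifs
      · exact div_nonneg zero_le_one (hval t).le
      · exact le_rfl
  obtain ⟨ζ, hζ0, hζ1, hζ2⟩ := Pool.Agent.Helper166.Tuza.lp_approx AA hAA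
    (Sum.elim (fun _ => 1) (fun _ => κ)) (by
      rintro (x | y)
      · exact zero_le_one
      · exact hκ.le) V (by
      intro q hq hq1
      have h1 := hcov (fun x => q (Sum.inl x)) (fun y => q (Sum.inr y)) (fun x => hq _)
        (fun y => hq _) (by
          intro t
          have h2 := hq1 t
          rw [Fintype.sum_sum_type] at h2
          simp only [AA, Sum.elim_inl, Sum.elim_inr, ite_mul, zero_mul] at h2
          rw [← sum_filter, ← sum_filter, filter_mem_eq_inter, filter_mem_eq_inter, univ_inter,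
            univ_inter, ← mul_sum, ← mul_sum, ← mul_add, one_div, inv_mul_eq_div,
            le_div_iff₀ (hval t), one_mul] at h2
          exact h2)
      rw [Fintype.sum_sum_type]
      simp only [Sum.elim_inl, Sum.elim_inr, mul_one]
      refine h1.trans (le_of_eq ?_)
      rw [← sum_mul, mul_comm κ]) (ε := ε) hε
  have hV : V ≤ J * N := by
    have h1 := hcov (fun x => if x ∈ X0 then (J : ℝ) else 0) (fun _ => 0) (fun x => by
      split_ifs
      · exact Nat.cast_nonneg _
      · exact le_rfl) (fun _ => le_rfl) (by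
      intro t
      obtain ⟨x, hx, hx0⟩ := hX0 t
      have h2 : (if x ∈ X0 then (J : ℝ) else 0) ≤ ∑ x ∈ A t, if x ∈ X0 then (J : ℝ) else 0 :=
        single_le_sum (f := fun x => if x ∈ X0 then (J : ℝ) else 0) (fun x _ => by
          split_ifs
          · exact Nat.cast_nonneg _
          · exact le_rfl) hx
      rw [if_pos hx0] at h2
      have h3 : (val t : ℝ) ≤ J := by exact_mod_cast hvJ t
      simp only [sum_const_zero, add_zero]
      exact h3.trans h2)
    rw [sum_const_zero, mul_zero, add_zero, ← sum_filter, filter_mem_eq_inter, univ_inter,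
      sum_const, nsmul_eq_mul] at h1
    have : (X0.card : ℝ) * J ≤ N * J := mul_le_mul_of_nonneg_right hN (Nat.cast_nonneg _)
    linarith
  have h1ε : (0 : ℝ) < 1 + ε := by linarith
  have hw : ∀ t, 0 ≤ ζ t / val t / (1 + ε) := fun t =>
    div_nonneg (div_nonneg (hζ0 t) (hval t).le) h1ε.le
  refine ⟨fun t => ζ t / val t / (1 + ε), hw, ?_, ?_, ?_⟩
  · intro x
    have h := hζ1 (Sum.inl x)
    simp only [AA, Sum.elim_inl, ite_mul, zero_mul] at h
    rw [← sum_filter] at h
    rw [← sum_div, div_le_one h1ε]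
    refine le_trans (le_of_eq ?_) h.le
    apply sum_congr rfl
    intro t _
    ring
  · intro y
    have h := hζ1 (Sum.inr y)
    simp only [AA, Sum.elim_inr, ite_mul, zero_mul] at h
    rw [← sum_filter] at h
    rw [← sum_div, div_le_iff₀ h1ε]
    have h2 : ∑ t with y ∈ B t, ζ t / (val t : ℝ) < κ + ε := by
      refine lt_of_le_of_lt (le_of_eq ?_) h
      apply sum_congr rfl
      intro t _
      ring
    nlinarith
  · have h2 : ∑ t, (val t : ℝ) * (ζ t / val t / (1 + ε)) = (∑ t, ζ t) / (1 + ε) := by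
      rw [sum_div]
      apply sum_congr rfl
      intro t _
      have := (hval t).ne'
      field_simp
    rw [h2, le_div_iff₀ h1ε]
    have hN0 : 0 ≤ N := (Nat.cast_nonneg _).trans hN
    have hJ0 : (0 : ℝ) ≤ J := Nat.cast_nonneg _
    have hJN : 0 ≤ (J : ℝ) * N := mul_nonneg hJ0 hN0
    have h3 : ε * V ≤ ε * (J * N) := mul_le_mul_of_nonneg_left hV hε.le
    nlinarith [mul_nonneg hε.le (mul_nonneg hε.le hJN), mul_pos hε hε]

end Q116.ES
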