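import Pool.Agent.H248.Nib
import Pool.Agent.Q116.ES.LP

set_option autoImplicit false

/-!
From fractional packings of weighted tiles to packings: the nibble, with tokens for the values.
-/

namespace Q116.ES

open Finset

/-- the tile `t` with the token `(val t, i)` -/
def TokEdge {T X : Type} [DecidableEq X] (A : T → Finset X) (val : T → ℕ) (m : ℕ → ℕ)
    (p : (t : T) × Fin (m (val t))) : Finset (X ⊕ (ℕ × ℕ)) :=
  insert (Sum.inr (val p.1, (p.2 : ℕ))) ((A p.1).map Function.Embedding.inl)

lemma inl_mem_TokEdge {T X : Type} [DecidableEq X] (A : T → Finset X) (val : T → ℕ) (m : ℕ → ℕ)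
    (p : (t : T) × Fin (m (val t))) (x : X) : Sum.inl x ∈ TokEdge A val m p ↔ x ∈ A p.1 := by
  simp [TokEdge]

lemma inr_mem_TokEdge {T X : Type} [DecidableEq X] (A : T → Finset X) (val : T → ℕ) (m : ℕ → ℕ)
    (p : (t : T) × Fin (m (val t))) (j i : ℕ) :
    Sum.inr (j, i) ∈ TokEdge A val m p ↔ val p.1 = j ∧ (p.2 : ℕ) = i := by
  simp [TokEdge, eq_comm]

lemma card_TokEdge {T X : Type} [DecidableEq X] (A : T → Finset X) (val : T → ℕ) (m : ℕ → ℕ)
    (p : (t : T) × Fin (m (val t))) {R : ℕ} (h : (A p.1).card ≤ R) :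
    (TokEdge A val m p).card ≤ R + 1 := by
  unfold TokEdge
  refine (card_insert_le _ _).trans ?_
  rw [card_map]
  omega

lemma sum_sigma_tok {T : Type} [Fintype T] [DecidableEq T] (val : T → ℕ) (m : ℕ → ℕ)
    (hm : ∀ t, 0 < m (val t)) (w : T → ℝ) (P : T → Prop) [DecidablePred P] :
    ∑ p : (t : T) × Fin (m (val t)), (if P p.1 then w p.1 / m (val p.1) else 0) =
      ∑ t with P t, w t := by
  rw [Fintype.sum_sigma, sum_filter]
  apply sum_congr rfl
  intro t _
  show ∑ _y : Fin (m (val t)), (if P t then w t / (m (val t) : ℝ) else 0) = _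
  rw [sum_const, card_univ, Fintype.card_fin, nsmul_eq_mul]
  have : (m (val t) : ℝ) ≠ 0 := by
    have := hm t
    positivity
  split_ifs
  · field_simp
  · simp

theorem pack (R J : ℕ) (θ : ℝ) (hθ : 0 < θ) :
    ∃ κ : ℝ, 0 < κ ∧ ∃ N0 : ℝ, ∀ (T X Y : Type) [Fintype T] [Fintype X] [Fintype Y]
      [DecidableEq T] [DecidableEq X] [DecidableEq Y]
      (A : T → Finset X) (B : T → Finset Y) (val : T → ℕ) (X0 : Finset X) (N V : ℝ),
      N0 ≤ N → (X0.card : ℝ) ≤ N →
      (∀ t, (A t).card ≤ R) → (∀ t, ∃ x ∈ A t, x ∈ X0) → (∀ t, val t ≤ J) → (∀ t, 1 ≤ val t) →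
      (∀ x x', x ≠ x' → (∀ t, ¬ (x ∈ A t ∧ x' ∈ A t)) ∨ ∃ y, ∀ t, x ∈ A t → x' ∈ A t → y ∈ B t) →
      (∀ (z : X → ℝ) (v : Y → ℝ), (∀ x, 0 ≤ z x) → (∀ y, 0 ≤ v y) →
        (∀ t, (val t : ℝ) ≤ ∑ x ∈ A t, z x + ∑ y ∈ B t, v y) → V ≤ ∑ x, z x + κ * ∑ y, v y) →
      ∃ M : Finset T, (∀ t ∈ M, ∀ t' ∈ M, t ≠ t' → Disjoint (A t) (A t')) ∧
        V - θ * N ≤ ∑ t ∈ M, (val t : ℝ) := by
  classical
  -- constants
  set θ' : ℝ := min θ 1 with hθ'
  have hθ'0 : 0 < θ' := lt_min hθ one_pos
  set D : ℝ := 8 * ((J : ℝ) + 1) ^ 2 with hD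
  have hJ0 : (0 : ℝ) ≤ J := Nat.cast_nonneg _
  have hD0 : 0 < D := by positivity
  have hD8 : 8 ≤ D := by rw [hD]; nlinarith
  set δ : ℝ := θ' / D with hδ
  have hδ0 : 0 < δ := div_pos hθ'0 hD0
  obtain ⟨κ₀, hκ₀, hnib⟩ := H248.Nib.nibble_T (R + 1) δ hδ0
  set κ : ℝ := κ₀ / 2 with hκ
  have hκ0 : 0 < κ := by positivity
  set ε : ℝ := min κ (min δ 1) with hε
  have hε0 : 0 < ε := lt_min hκ0 (lt_min hδ0 one_pos)
  have hεκ : ε ≤ κ := min_le_left _ _
  have hεδ : ε ≤ δ := (min_le_right _ _).trans (min_le_left _ _)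
  have hε1 : ε ≤ 1 := (min_le_right _ _).trans (min_le_right _ _)
  refine ⟨κ, hκ0, max (1 / (δ * κ₀)) (max (1 / δ) 1), ?_⟩
  intro T X Y _ _ _ _ _ _ A B val X0 N V hN0 hX0N hR hX0 hvJ hv1 hco hcov
  have hN1 : 1 / (δ * κ₀) ≤ N := (le_max_left _ _).trans hN0
  have hN2 : 1 / δ ≤ N := (le_max_left _ _).trans ((le_max_right _ _).trans hN0)
  have hN3 : 1 ≤ N := (le_max_right _ _).trans ((le_max_right _ _).trans hN0)
  have hNδ : 1 ≤ δ * N := by rwa [div_le_iff₀ hδ0, mul_comm] at hN2
  obtain ⟨w, hw0, hwX, hwY, hwV⟩ := lp_part A B val X0 N V κ ε J hκ0 hε0 hεκ hε1 hX0N hX0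
    hvJ hv1 hcov
  have h2κ : 2 * κ = κ₀ := by rw [hκ]; ring
  rw [h2κ] at hwY
  -- the numbers of tokens
  set W : ℕ → ℝ := fun j => ∑ t with val t = j, w t with hW
  have hW0 : ∀ j, 0 ≤ W j := fun j => sum_nonneg (fun t _ => hw0 t)
  set m : ℕ → ℕ := fun j => ⌊W j + δ * N⌋₊ + 1 with hm
  have hmpos : ∀ j, 0 < m j := fun j => Nat.succ_pos _
  have hm1 : ∀ j, W j + δ * N ≤ m j := fun j => by
    have := Nat.lt_floor_add_one (W j + δ * N)
    rw [hm]
    push_cast
    exact this.le
  have hm2 : ∀ j, (m j : ℝ) ≤ W j + δ * N + 1 := fun j => by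
    have := Nat.floor_le (show 0 ≤ W j + δ * N by have := hW0 j; positivity)
    rw [hm]
    push_cast
    linarith
  have hmr : ∀ j, (0 : ℝ) < m j := fun j => by
    have := hmpos j
    exact_mod_cast this
  have hmκ : ∀ j, 1 / (m j : ℝ) ≤ κ₀ := fun j => by
    rw [div_le_iff₀ (hmr j)]
    have h1 : δ * N ≤ m j := by
      have := hm1 j
      have := hW0 j
      linarith
    have h2 : 1 ≤ κ₀ * (δ * N) := by
      rw [div_le_iff₀ (by positivity)] at hN1
      linarith
    calc 1 ≤ κ₀ * (δ * N) := h2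
      _ ≤ κ₀ * m j := mul_le_mul_of_nonneg_left h1 hκ₀.le
  have hAne : ∀ t, (A t).Nonempty := fun t => by
    obtain ⟨x, hx, -⟩ := hX0 t
    exact ⟨x, hx⟩
  have hw1 : ∀ t, w t ≤ 1 := fun t => by
    obtain ⟨x, hx⟩ := hAne t
    exact (single_le_sum (f := w) (fun t _ => hw0 t)
      (mem_filter.2 ⟨mem_univ t, hx⟩)).trans (hwX x)
  -- the nibble
  obtain ⟨M', hM1, -, hM3⟩ := hnib ((t : T) × Fin (m (val t))) (X ⊕ (ℕ × ℕ)) (TokEdge A val m)
    (fun p => w p.1 / m (val p.1)) (fun p => div_nonneg (hw0 _) (Nat.cast_nonneg _))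
    (fun p => ⟨_, mem_insert_self _ _⟩) (fun p => card_TokEdge A val m p (hR _)) (by
      rintro (x | ⟨j, i⟩)
      · rw [sum_filter]
        simp only [inl_mem_TokEdge]
        rw [sum_sigma_tok val m (fun t => hmpos _) w (fun t => x ∈ A t)]
        exact hwX x
      · rw [sum_filter]
        simp only [inr_mem_TokEdge]
        rw [Fintype.sum_sigma]
        have h1 : ∀ t : T, ∑ y : Fin (m (val t)),
            (if val t = j ∧ (y : ℕ) = i then w t / (m (val t) : ℝ) else 0) ≤
            if val t = j then w t / (m j : ℝ) else 0 := by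
          intro t
          by_cases hj : val t = j
          · rw [if_pos hj]
            subst hj
            simp only [true_and]
            rw [← sum_filter, sum_const, nsmul_eq_mul]
            have h2 : (univ.filter fun y : Fin (m (val t)) => (y : ℕ) = i).card ≤ 1 := by
              rw [card_le_one]
              intro a ha b hb
              rw [mem_filter] at ha hb
              exact Fin.ext (ha.2.trans hb.2.symm)
            have h3 : ((univ.filter fun y : Fin (m (val t)) => (y : ℕ) = i).card : ℝ) ≤ 1 := by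
              exact_mod_cast h2
            have h4 : 0 ≤ w t / (m (val t) : ℝ) := div_nonneg (hw0 _) (Nat.cast_nonneg _)
            nlinarith
          · rw [if_neg hj]
            apply le_of_eq
            apply sum_eq_zero
            intro y _
            exact if_neg (fun h => hj h.1)
        refine (sum_le_sum (fun t _ => h1 t)).trans ?_
        rw [← sum_filter, ← sum_div, div_le_one (hmr j)]
        have h2 := hm1 j
        have h3 : 0 ≤ δ * N := by linarith
        have h4 : ∑ t with val t = j, w t = W j := rfl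
        rw [h4]
        linarith) (by
      -- codegrees
      have hnn : ∀ p : (t : T) × Fin (m (val t)), 0 ≤ w p.1 / (m (val p.1) : ℝ) := fun p =>
        div_nonneg (hw0 _) (Nat.cast_nonneg _)
      have hmix : ∀ (x : X) (j i : ℕ), ∑ p : (t : T) × Fin (m (val t)) with
          (x ∈ A p.1 ∧ (val p.1 = j ∧ (p.2 : ℕ) = i)), w p.1 / (m (val p.1) : ℝ) ≤ κ₀ := by
        intro x j i
        rw [sum_filter, Fintype.sum_sigma]
        have h1 : ∀ t : T, ∑ y : Fin (m (val t)),
            (if x ∈ A t ∧ (val t = j ∧ (y : ℕ) = i) then w t / (m (val t) : ℝ) else 0) ≤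
            if x ∈ A t then w t / (m j : ℝ) else 0 := by
          intro t
          by_cases hx : x ∈ A t
          · rw [if_pos hx]
            by_cases hj : val t = j
            · subst hj
              simp only [hx, true_and]
              rw [← sum_filter, sum_const, nsmul_eq_mul]
              have h2 : (univ.filter fun y : Fin (m (val t)) => (y : ℕ) = i).card ≤ 1 := by
                rw [card_le_one]
                intro a ha b hb
                rw [mem_filter] at ha hb
                exact Fin.ext (ha.2.trans hb.2.symm)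
              have h3 : ((univ.filter fun y : Fin (m (val t)) => (y : ℕ) = i).card : ℝ) ≤ 1 := by
                exact_mod_cast h2
              have h4 : 0 ≤ w t / (m (val t) : ℝ) := div_nonneg (hw0 _) (Nat.cast_nonneg _)
              nlinarith
            · refine le_trans (le_of_eq ?_) (div_nonneg (hw0 t) (Nat.cast_nonneg _))
              apply sum_eq_zero
              intro y _
              exact if_neg (fun h => hj h.2.1)
          · rw [if_neg hx]
            apply le_of_eq
            apply sum_eq_zero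
            intro y _
            exact if_neg (fun h => hx h.1)
        refine (sum_le_sum (fun t _ => h1 t)).trans ?_
        rw [← sum_filter, ← sum_div]
        refine le_trans ?_ (hmκ j)
        exact div_le_div_of_nonneg_right (hwX x) (hmr j).le
      rintro (x | ⟨j, i⟩) (x' | ⟨j', i'⟩) hne
      · simp only [inl_mem_TokEdge]
        rw [sum_filter, sum_sigma_tok val m (fun t => hmpos _) w (fun t => x ∈ A t ∧ x' ∈ A t)]
        rcases hco x x' (fun h => hne (by rw [h])) with h | ⟨y, hy⟩
        · rw [filter_eq_empty_iff.2 (fun t _ => h t), sum_empty]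
          exact hκ₀.le
        · refine le_trans ?_ (hwY y)
          apply sum_le_sum_of_subset_of_nonneg
          · intro t ht
            rw [mem_filter] at ht ⊢
            exact ⟨mem_univ _, hy t ht.2.1 ht.2.2⟩
          · intro t _ _
            exact hw0 t
      · simp only [inl_mem_TokEdge, inr_mem_TokEdge]
        exact hmix x j' i'
      · simp only [inl_mem_TokEdge, inr_mem_TokEdge]
        refine le_trans (le_of_eq ?_) (hmix x' j i)
        apply sum_congr _ (fun _ _ => rfl)
        ext p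
        simp only [mem_filter, mem_univ, true_and]
        exact and_comm
      · simp only [inr_mem_TokEdge]
        rw [filter_eq_empty_iff.2, sum_empty]
        · exact hκ₀.le
        · rintro p - ⟨⟨h1, h2⟩, h3, h4⟩
          apply hne
          rw [← h1, ← h2, ← h3, ← h4]) (by
      intro p
      refine le_trans ?_ (hmκ (val p.1))
      exact div_le_div_of_nonneg_right (hw1 _) (hmr _).le)
  -- the tiles of the matching
  have hinj : Set.InjOn (fun p : (t : T) × Fin (m (val t)) => p.1) (M' : Set _) := by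
    intro p hp q hq hpq
    by_contra hne
    have h := hM1 p hp q hq hne
    obtain ⟨x, hx⟩ := hAne p.1
    rw [disjoint_left] at h
    refine h ((inl_mem_TokEdge A val m p x).2 hx) ((inl_mem_TokEdge A val m q x).2 ?_)
    have : p.1 = q.1 := hpq
    rwa [← this]
  refine ⟨M'.image (fun p => p.1), ?_, ?_⟩
  · intro t ht t' ht' hne
    rw [mem_image] at ht ht'
    obtain ⟨p, hp, rfl⟩ := ht
    obtain ⟨q, hq, rfl⟩ := ht'
    have h := hM1 p hp q hq (fun h => hne (by rw [h]))
    rw [disjoint_left] at h ⊢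
    intro x hx hx'
    exact h ((inl_mem_TokEdge A val m p x).2 hx) ((inl_mem_TokEdge A val m q x).2 hx')
  rw [sum_image hinj]
  -- the fibres
  set c : ℕ → ℕ := fun j => (M'.filter fun p => val p.1 = j).card with hc
  have hcm : ∀ j, c j ≤ m j := by
    intro j
    have h1 : c j ≤ (range (m j)).card := by
      refine card_le_card_of_injOn (fun p => (p.2 : ℕ)) ?_ ?_
      · intro p hp
        rw [mem_coe, mem_filter] at hp
        rw [mem_coe, mem_range]
        have := p.2.2
        exact this.trans_eq (by rw [hp.2])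
      · intro p hp q hq hpq
        rw [mem_coe, mem_filter] at hp hq
        by_contra hne
        have h := hM1 p hp.1 q hq.1 hne
        rw [disjoint_left] at h
        exact h ((inr_mem_TokEdge A val m p j p.2).2 ⟨hp.2, rfl⟩)
          ((inr_mem_TokEdge A val m q j p.2).2 ⟨hq.2, hpq.symm⟩)
    rwa [card_range] at h1
  have hmaps : ∀ p ∈ M', val p.1 ∈ range (J + 1) := fun p _ => by
    rw [mem_range]
    have := hvJ p.1
    omega
  have hMc : (M'.card : ℝ) = ∑ j ∈ range (J + 1), (c j : ℝ) := by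
    rw [card_eq_sum_card_fiberwise hmaps]
    push_cast
    rfl
  have hval : ∑ p ∈ M', (val p.1 : ℝ) = ∑ j ∈ range (J + 1), (j : ℝ) * c j := by
    rw [← sum_fiberwise_of_maps_to hmaps]
    apply sum_congr rfl
    intro j _
    rw [sum_congr rfl (g := fun _ => (j : ℝ)) (fun p hp => by rw [(mem_filter.1 hp).2]), sum_const,
      nsmul_eq_mul, mul_comm]
  have htot : ∑ p : (t : T) × Fin (m (val t)), w p.1 / (m (val p.1) : ℝ) = ∑ t, w t := by
    have := sum_sigma_tok val m (fun t => hmpos _) w (fun _ => True)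
    simpa using this
  have hmapsT : ∀ t ∈ (univ : Finset T), val t ∈ range (J + 1) := fun t _ => by
    rw [mem_range]
    have := hvJ t
    omega
  have hWt : ∑ t, w t = ∑ j ∈ range (J + 1), W j := by
    rw [← sum_fiberwise_of_maps_to hmapsT]
  have hWv : ∑ t, (val t : ℝ) * w t = ∑ j ∈ range (J + 1), (j : ℝ) * W j := by
    rw [← sum_fiberwise_of_maps_to hmapsT]
    apply sum_congr rfl
    intro j _
    rw [hW, mul_sum]
    apply sum_congr rfl
    intro t ht
    rw [(mem_filter.1 ht).2]
  -- total weight at most `N`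
  have hWN : ∑ t, w t ≤ N := by
    refine le_trans ?_ hX0N
    have h1 : ∑ t, w t ≤ ∑ x ∈ X0, ∑ t with x ∈ A t, w t := by
      simp_rw [sum_filter]
      rw [sum_comm]
      apply sum_le_sum
      intro t _
      obtain ⟨x, hx, hx0⟩ := hX0 t
      have := single_le_sum (f := fun x => if x ∈ A t then w t else 0) (fun x _ => by
        split_ifs
        · exact hw0 t
        · exact le_rfl) hx0
      rwa [if_pos hx] at this
    refine h1.trans ?_
    calc ∑ x ∈ X0, ∑ t with x ∈ A t, w t ≤ ∑ x ∈ X0, (1 : ℝ) := sum_le_sum (fun x _ => hwX x)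
      _ = X0.card := by simp
  rw [htot] at hM3
  rw [hval]
  rw [hWv] at hwV
  have hcm' : ∀ j, (c j : ℝ) ≤ m j := fun j => by exact_mod_cast hcm j
  -- deficits
  have hdef : ∑ j ∈ range (J + 1), ((m j : ℝ) - c j) ≤ (J + 1) * (δ * N + 1) + δ * N := by
    rw [sum_sub_distrib, ← hMc]
    have h1 : ∑ j ∈ range (J + 1), (m j : ℝ) ≤ ∑ j ∈ range (J + 1), (W j + (δ * N + 1)) :=
      sum_le_sum (fun j _ => by have := hm2 j; linarith)
    rw [sum_add_distrib, sum_const, card_range, nsmul_eq_mul, ← hWt] at h1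
    push_cast at h1
    have h2 : δ * ∑ t, w t ≤ δ * N := mul_le_mul_of_nonneg_left hWN hδ0.le
    linarith
  have hkey : ∑ j ∈ range (J + 1), (j : ℝ) * W j - J * ∑ j ∈ range (J + 1), ((m j : ℝ) - c j) ≤
      ∑ j ∈ range (J + 1), (j : ℝ) * c j := by
    rw [mul_sum, ← sum_sub_distrib]
    apply sum_le_sum
    intro j hj
    rw [mem_range] at hj
    have hjJ : (j : ℝ) ≤ J := by
      have : j ≤ J := by omega
      exact_mod_cast this
    have h1 : W j ≤ m j := by
      have := hm1 j
      have : 0 ≤ δ * N := by linarith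
      linarith
    have h2 := hcm' j
    have hj0 : (0 : ℝ) ≤ j := Nat.cast_nonneg _
    nlinarith
  refine le_trans ?_ hkey
  have h3 := mul_le_mul_of_nonneg_left hdef hJ0
  have hθD : δ * D = θ' := by rw [hδ]; exact div_mul_cancel₀ _ hD0.ne'
  have hθN : θ' * N ≤ θ * N := mul_le_mul_of_nonneg_right (min_le_left _ _) (by linarith)
  have h4 : ε + ε * (J * N) + J * ((J + 1) * (δ * N + 1) + δ * N) ≤ θ' * N := by
    have hδN : 0 ≤ δ * N := by linarith
    have e1 : ε ≤ δ * N := hεδ.trans (by nlinarith)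
    have e2 : ε * (J * N) ≤ δ * N * J := by
      have : ε * (J * N) ≤ δ * (J * N) := mul_le_mul_of_nonneg_right hεδ (by positivity)
      linarith
    have e3 : J * ((J + 1) * (δ * N + 1) + δ * N) ≤ J * ((J + 1) * (2 * (δ * N)) + δ * N) := by
      gcongr
      linarith
    have e4 : θ' * N = 8 * ((J : ℝ) + 1) ^ 2 * (δ * N) := by
      rw [← hθD, hD]
      ring
    rw [e4]
    nlinarith [mul_nonneg hJ0 hδN, mul_nonneg (mul_nonneg hJ0 hJ0) hδN]
  linarith

end Q116.ES
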