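import Pool.Agent.Q116.ES.Alpha
import Pool.Agent.Q116.ES.Tok

set_option autoImplicit false

/-!
The asymptotic form of the conjecture of Erdős and Sauer.
-/

namespace Q116.ES

open Finset

/-- the density of the extremal numbers -/
noncomputable def dens (r p M : ℕ) : ℝ := (alpha M p r : ℝ) / (M.choose r : ℝ)

/-- almost optimal sample size -/
lemma exists_M {r p : ℕ} (ε : ℝ) (hε : 0 < ε) : ∃ M : ℕ, r + 1 ≤ M ∧
    ∀ n, r + 1 ≤ n → dens r p M ≤ dens r p n + ε := by
  set S : Set ℝ := {x | ∃ M, r + 1 ≤ M ∧ x = dens r p M} with hS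
  have hne : S.Nonempty := ⟨_, r + 1, le_rfl, rfl⟩
  have hbd : BddBelow S := ⟨0, by
    rintro x ⟨M, -, rfl⟩
    unfold dens
    positivity⟩
  obtain ⟨x, ⟨M, hM, rfl⟩, hx⟩ := exists_lt_of_csInf_lt hne
    (show sInf S < sInf S + ε by linarith)
  refine ⟨M, hM, fun n hn => ?_⟩
  have := csInf_le hbd (show dens r p n ∈ S from ⟨n, hn, rfl⟩)
  linarith

/-- the lower bound for the covers with penalties, by sampling -/
lemma cover_lower {n r p : ℕ} (hr : 2 ≤ r) (hp : r < p) (H : Finset (Finset (Fin n)))
    (hH : ∀ e ∈ H, e.card = r) (M : ℕ) (hM : r + 1 ≤ M) (hMn : M ≤ n)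
    (z v : Finset (Fin n) → ℝ) (hz : ∀ e, 0 ≤ z e) (hv : ∀ e, 0 ≤ v e)
    (hcov : ∀ S : Finset (Fin n), S.card = p → S.powersetCard r ⊆ H →
      1 ≤ ∑ e ∈ S.powersetCard r, z e + ∑ e ∈ S.powersetCard (r + 1), v e)
    (η : ℝ) (hη : 0 < η) (hη1 : (p.choose (r + 1) : ℝ) * η < 1) :
    (H.card : ℝ) - ((p.choose r : ℝ) - 1) / (1 - (p.choose (r + 1) : ℝ) * η) * ∑ e ∈ H, z e ≤
      dens r p M * (n.choose r : ℝ) +
      (M.choose r : ℝ) / η * (((M : ℝ) - r) / ((n : ℝ) - r)) * ∑ e, v e := by
  classical
  set δ : ℝ := (p.choose (r + 1) : ℝ) * η with hδ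
  set K : ℝ := ((p.choose r : ℝ) - 1) / (1 - δ) with hK
  have h1δ : 0 < 1 - δ := by linarith
  -- one sample
  have hone : ∀ U ∈ (univ : Finset (Fin n)).powersetCard M,
      ((H.filter fun e => e ⊆ U).card : ℝ) - K * ∑ e ∈ H.filter (fun e => e ⊆ U), z e ≤
        alpha M p r + (M.choose r : ℝ) / η * ∑ e ∈ (univ.powersetCard (r + 1)).filter
          (fun e => e ⊆ U), v e := by
    intro U hU
    rw [mem_powersetCard] at hU
    have hC1 : (1 : ℝ) ≤ p.choose r := by
      have := Nat.choose_pos hp.le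
      exact_mod_cast this
    have hK0 : 0 ≤ K := div_nonneg (by linarith) h1δ.le
    have hzs : 0 ≤ ∑ e ∈ H.filter (fun e => e ⊆ U), z e := sum_nonneg (fun e _ => hz e)
    have hvs : 0 ≤ ∑ e ∈ (univ.powersetCard (r + 1)).filter (fun e => e ⊆ U), v e :=
      sum_nonneg (fun e _ => hv e)
    by_cases hbad : ∃ Q ∈ (univ.powersetCard (r + 1)).filter (fun e : Finset (Fin n) => e ⊆ U),
        η < v Q
    · obtain ⟨Q, hQ, hvQ⟩ := hbad
      have h1 : ((H.filter fun e => e ⊆ U).card : ℝ) ≤ M.choose r := by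
        have : (H.filter fun e => e ⊆ U).card ≤ (U.powersetCard r).card := by
          apply card_le_card
          intro e he
          rw [mem_filter] at he
          exact mem_powersetCard.2 ⟨he.2, hH e he.1⟩
        rw [card_powersetCard, hU.2] at this
        exact_mod_cast this
      have h2 : v Q ≤ ∑ e ∈ (univ.powersetCard (r + 1)).filter (fun e => e ⊆ U), v e :=
        single_le_sum (fun e _ => hv e) hQ
      have h3 : (M.choose r : ℝ) ≤ (M.choose r : ℝ) / η * ∑ e ∈ (univ.powersetCard
          (r + 1)).filter (fun e => e ⊆ U), v e := by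
        rw [div_mul_eq_mul_div, le_div_iff₀ hη]
        apply mul_le_mul_of_nonneg_left _ (Nat.cast_nonneg _)
        linarith
      have h4 : (0 : ℝ) ≤ alpha M p r := Nat.cast_nonneg _
      have h5 : 0 ≤ K * ∑ e ∈ H.filter (fun e => e ⊆ U), z e := mul_nonneg hK0 hzs
      linarith
    · push Not at hbad
      obtain ⟨F, hFH, hFf, hFc⟩ := cover_bound hr hp (H.filter fun e => e ⊆ U) (by
          intro e he
          rw [mem_filter] at he
          exact mem_powersetCard.2 ⟨subset_univ _, hH e he.1⟩) (fun e => z e / (1 - δ))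
        (fun e _ => div_nonneg (hz e) h1δ.le) (by
          intro S hS hSH
          rw [← sum_div, one_le_div h1δ]
          have hSH' : S.powersetCard r ⊆ H := hSH.trans (filter_subset _ _)
          have h1 := hcov S hS hSH'
          have hSU : S ⊆ U := by
            intro x hx
            obtain ⟨e, hxe, heS, hec⟩ : ∃ e, x ∈ e ∧ e ⊆ S ∧ e.card = r := by
              obtain ⟨e, h2, h3, h4⟩ := exists_subsuperset_card_eq
                (singleton_subset_iff.2 hx) (show ({x} : Finset (Fin n)).card ≤ r by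
                  rw [card_singleton]; omega) (show r ≤ S.card by omega)
              exact ⟨e, singleton_subset_iff.1 h2, h3, h4⟩
            have := hSH (mem_powersetCard.2 ⟨heS, hec⟩)
            rw [mem_filter] at this
            exact this.2 hxe
          have h2 : ∑ e ∈ S.powersetCard (r + 1), v e ≤ δ := by
            calc ∑ e ∈ S.powersetCard (r + 1), v e ≤ ∑ e ∈ S.powersetCard (r + 1), η := by
                  apply sum_le_sum
                  intro e he
                  rw [mem_powersetCard] at he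
                  exact hbad e (mem_filter.2 ⟨mem_powersetCard.2 ⟨subset_univ _, he.2⟩,
                    he.1.trans hSU⟩)
              _ = δ := by rw [sum_const, card_powersetCard, hS, nsmul_eq_mul]
          linarith)
      have h1 : (F.card : ℝ) ≤ alpha M p r := by
        have : F.card ≤ alpha U.card p r := Free.card_le
          ⟨fun e he => hH e (mem_filter.1 (hFH he)).1, hFf⟩ U
          (fun e he => (mem_filter.1 (hFH he)).2)
        rw [hU.2] at this
        exact_mod_cast this
      have h2 : ((p.choose r : ℝ) - 1) * ∑ e ∈ H.filter (fun e => e ⊆ U), z e / (1 - δ) =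
          K * ∑ e ∈ H.filter (fun e => e ⊆ U), z e := by
        rw [hK, ← sum_div]
        ring
      rw [h2] at hFc
      have h3 : 0 ≤ (M.choose r : ℝ) / η * ∑ e ∈ (univ.powersetCard (r + 1)).filter
          (fun e => e ⊆ U), v e := mul_nonneg (div_nonneg (Nat.cast_nonneg _) hη.le) hvs
      linarith
  -- the sum over all samples
  have hsum := sum_le_sum hone
  rw [sum_sub_distrib, sum_add_distrib, ← mul_sum, ← mul_sum, sum_const, card_powersetCard,
    card_univ, Fintype.card_fin, nsmul_eq_mul,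
    sum_supersets M r (by omega) H hH z,
    sum_supersets M (r + 1) hM _ (fun e he => (mem_powersetCard.1 he).2) v] at hsum
  have hcard : ∑ U ∈ (univ : Finset (Fin n)).powersetCard M,
      ((H.filter fun e => e ⊆ U).card : ℝ) = ((n - r).choose (M - r) : ℕ) * (H.card : ℝ) := by
    have := sum_supersets M r (by omega) H hH (fun _ => (1 : ℝ))
    simpa using this
  rw [hcard] at hsum
  -- division
  set q : ℝ := (((n - r).choose (M - r) : ℕ) : ℝ) with hq
  have hqpos : 0 < q := by
    have : 0 < (n - r).choose (M - r) := Nat.choose_pos (by omega)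
    rw [hq]
    exact_mod_cast this
  have hnr : (0 : ℝ) < (n : ℝ) - r := by
    have : r < n := by omega
    have : (r : ℝ) < n := by exact_mod_cast this
    linarith
  have hMr : (0 : ℝ) < (M.choose r : ℝ) := by
    have : 0 < M.choose r := Nat.choose_pos (by omega)
    exact_mod_cast this
  have h1 : (n.choose M : ℝ) * (alpha M p r : ℝ) = q * (dens r p M * (n.choose r : ℝ)) := by
    have := choose_id (n := n) (M := M) (r := r) (by omega) hMn
    unfold dens
    rw [hq]
    field_simp
    linear_combination (alpha M p r : ℝ) * this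
  have h2 : (((n - (r + 1)).choose (M - (r + 1)) : ℕ) : ℝ) =
      q * (((M : ℝ) - r) / ((n : ℝ) - r)) := by
    have := choose_id2 (n := n) (M := M) (r := r) hM hMn
    rw [mul_div_assoc', eq_div_iff hnr.ne', hq]
    exact this
  rw [h1, h2] at hsum
  have hvle : ∑ e ∈ (univ : Finset (Fin n)).powersetCard (r + 1), v e ≤ ∑ e, v e :=
    sum_le_sum_of_subset_of_nonneg (subset_univ _) (fun e _ _ => hv e)
  have hMr' : (0 : ℝ) ≤ (M : ℝ) - r := by
    have : r ≤ M := by omega
    have : (r : ℝ) ≤ M := by exact_mod_cast this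
    linarith
  have h3 : (M.choose r : ℝ) / η * (q * (((M : ℝ) - r) / ((n : ℝ) - r)) *
      ∑ e ∈ (univ : Finset (Fin n)).powersetCard (r + 1), v e) ≤
      q * ((M.choose r : ℝ) / η * (((M : ℝ) - r) / ((n : ℝ) - r)) * ∑ e, v e) := by
    have h4 : 0 ≤ q * ((M.choose r : ℝ) / η * (((M : ℝ) - r) / ((n : ℝ) - r))) := by positivity
    calc (M.choose r : ℝ) / η * (q * (((M : ℝ) - r) / ((n : ℝ) - r)) *
      ∑ e ∈ (univ : Finset (Fin n)).powersetCard (r + 1), v e)
        = q * ((M.choose r : ℝ) / η * (((M : ℝ) - r) / ((n : ℝ) - r))) *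
          ∑ e ∈ (univ : Finset (Fin n)).powersetCard (r + 1), v e := by ring
      _ ≤ q * ((M.choose r : ℝ) / η * (((M : ℝ) - r) / ((n : ℝ) - r))) * ∑ e, v e :=
          mul_le_mul_of_nonneg_left hvle h4
      _ = _ := by ring
  have h5 : q * ((H.card : ℝ) - K * ∑ e ∈ H, z e) ≤ q * (dens r p M * (n.choose r : ℝ) +
      (M.choose r : ℝ) / η * (((M : ℝ) - r) / ((n : ℝ) - r)) * ∑ e, v e) := by
    calc q * ((H.card : ℝ) - K * ∑ e ∈ H, z e)
        = q * (H.card : ℝ) - K * (q * ∑ e ∈ H, z e) := by ring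
      _ ≤ _ := hsum
      _ ≤ _ := by linarith
  exact le_of_mul_le_mul_left h5 hqpos

end Q116.ES
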