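import Pool.Agent.Q116.ES.Frac

set_option autoImplicit false

/-!
Every `r`-graph with `m` edges contains a `K_{r+1}^r`-free `r`-graph with at least `m / r` edges.
-/

namespace Q116.ES

open Finset

lemma bern {r : ℕ} (hr : 2 ≤ r) : (r : ℝ) ^ r ≤ r * (r * ((r : ℝ) - 1) ^ (r - 1)) := by
  have hr' : (2 : ℝ) ≤ r := by exact_mod_cast hr
  have hr0 : (0 : ℝ) < r := by linarith
  have h := one_add_mul_le_pow (a := -(1 / (r : ℝ))) (by
    have : 1 / (r : ℝ) ≤ 1 := by rw [div_le_one hr0]; linarith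
    linarith) (r - 1)
  rw [Nat.cast_sub (by omega), Nat.cast_one] at h
  have e1 : 1 + ((r : ℝ) - 1) * -(1 / (r : ℝ)) = 1 / r := by field_simp; ring
  rw [e1] at h
  have e2 : ((r : ℝ) - 1) ^ (r - 1) = (1 + -(1 / (r : ℝ))) ^ (r - 1) * (r : ℝ) ^ (r - 1) := by
    rw [← mul_pow]
    congr 1
    field_simp
    ring
  have e3 : (r : ℝ) ^ r = r * (r : ℝ) ^ (r - 1) := by
    rw [← pow_succ', Nat.sub_add_cancel (by omega)]
  rw [e2, e3]
  have h2 : (0 : ℝ) < (r : ℝ) ^ (r - 1) := by positivity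
  have h3 : 1 ≤ r * (1 + -(1 / (r : ℝ))) ^ (r - 1) := by
    have := mul_le_mul_of_nonneg_left h hr0.le
    rwa [mul_one_div_cancel hr0.ne'] at this
  calc (r : ℝ) * (r : ℝ) ^ (r - 1) = r * (1 * (r : ℝ) ^ (r - 1)) := by ring
    _ ≤ r * (r * (1 + -(1 / (r : ℝ))) ^ (r - 1) * (r : ℝ) ^ (r - 1)) := by gcongr
    _ = _ := by ring

variable {V : Type*} [Fintype V] [DecidableEq V]

/-- the colourings in which `v` is the only vertex of `e` of the colour `0` -/
def one0 {r : ℕ} [NeZero r] (e : Finset V) (v : V) : Finset (V → Fin r) :=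
  Fintype.piFinset (fun u => if u = v then {0} else if u ∈ e then univ.erase 0 else univ)

lemma card_one0 {r : ℕ} [NeZero r] (e : Finset V) (v : V) (hv : v ∈ e) (he : e.card = r) :
    (one0 (r := r) e v).card * r ^ r = (r - 1) ^ (r - 1) * r ^ Fintype.card V := by
  unfold one0
  rw [Fintype.card_piFinset]
  have h1 : ∀ u : V, (if u = v then ({0} : Finset (Fin r)) else if u ∈ e then univ.erase 0
      else univ).card = if u = v then 1 else if u ∈ e then r - 1 else r := by
    intro u
    split_ifs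
    · rfl
    · rw [card_erase_of_mem (mem_univ _), card_univ, Fintype.card_fin]
    · rw [card_univ, Fintype.card_fin]
  rw [prod_congr rfl (fun u _ => h1 u)]
  rw [← prod_mul_prod_compl e]
  have h2 : ∏ u ∈ e, (if u = v then 1 else if u ∈ e then r - 1 else r) = (r - 1) ^ (r - 1) := by
    rw [← mul_prod_erase e _ hv, if_pos rfl, one_mul]
    rw [prod_congr rfl (g := fun _ => r - 1) (fun u hu => ?_), prod_const,
      card_erase_of_mem hv, he]
    rw [mem_erase] at hu
    rw [if_neg hu.1, if_pos hu.2]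
  have h3 : ∏ u ∈ eᶜ, (if u = v then 1 else if u ∈ e then r - 1 else r) =
      r ^ (Fintype.card V - r) := by
    rw [prod_congr rfl (g := fun _ => r) (fun u hu => ?_), prod_const, card_compl, he]
    rw [mem_compl] at hu
    rw [if_neg (fun h : u = v => hu (by rw [h]; exact hv)), if_neg hu]
  have h4 : r ≤ Fintype.card V := by rw [← he]; exact card_le_univ e
  rw [h2, h3, mul_assoc, ← pow_add, Nat.sub_add_cancel h4]

/-- exactly one vertex of `e` has the colour `0` -/
def Ex1 {r : ℕ} [NeZero r] (c : V → Fin r) (e : Finset V) : Prop :=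
  (e.filter fun v => c v = 0).card = 1

instance {r : ℕ} [NeZero r] (c : V → Fin r) (e : Finset V) : Decidable (Ex1 c e) := by
  unfold Ex1; infer_instance

lemma count_Ex1 {r : ℕ} [NeZero r] (e : Finset V) (he : e.card = r) :
    (univ.filter fun c : V → Fin r => Ex1 c e).card * r ^ r =
      r * ((r - 1) ^ (r - 1) * r ^ Fintype.card V) := by
  have h1 : (univ.filter fun c : V → Fin r => Ex1 c e) = e.biUnion (fun v => one0 e v) := by
    ext c
    simp only [mem_filter, mem_univ, true_and, mem_biUnion, one0, Fintype.mem_piFinset]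
    unfold Ex1
    rw [card_eq_one]
    constructor
    · rintro ⟨v, hv⟩
      have hv' : v ∈ e.filter fun v => c v = 0 := by rw [hv]; exact mem_singleton_self v
      rw [mem_filter] at hv'
      refine ⟨v, hv'.1, fun u => ?_⟩
      split_ifs with h1 h2
      · rw [h1, mem_singleton]
        exact hv'.2
      · rw [mem_erase]
        refine ⟨fun h => h1 ?_, mem_univ _⟩
        have : u ∈ e.filter fun v => c v = 0 := mem_filter.2 ⟨h2, h⟩
        rw [hv] at this
        exact mem_singleton.1 this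
      · exact mem_univ _
    · rintro ⟨v, hv, h⟩
      refine ⟨v, ?_⟩
      ext u
      rw [mem_filter, mem_singleton]
      constructor
      · rintro ⟨h1, h2⟩
        by_contra hne
        have := h u
        rw [if_neg hne, if_pos h1, mem_erase] at this
        exact this.1 h2
      · rintro rfl
        have := h u
        rw [if_pos rfl, mem_singleton] at this
        exact ⟨hv, this⟩
  have hdis : (e : Set V).PairwiseDisjoint (fun v => one0 (r := r) e v) := by
    intro v hv w hw hvw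
    rw [Function.onFun, disjoint_left]
    intro c h1 h2
    simp only [one0, Fintype.mem_piFinset] at h1 h2
    have h3 := h1 w
    rw [if_neg (Ne.symm hvw), if_pos (mem_coe.1 hw), mem_erase] at h3
    have h4 := h2 w
    rw [if_pos rfl, mem_singleton] at h4
    exact h3.1 h4
  rw [h1, card_biUnion hdis, sum_mul, sum_congr rfl (fun v hv => card_one0 e v hv he), sum_const,
    he, smul_eq_mul]

/-- the cliques: the families of all `r`-subsets of the `p`-sets -/
def Cl (V : Type*) [Fintype V] [DecidableEq V] (r p : ℕ) : Finset (Finset (Finset V)) :=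
  (univ.powersetCard p).image (fun S => S.powersetCard r)

lemma mem_Cl {r p : ℕ} {t : Finset (Finset V)} :
    t ∈ Cl V r p ↔ ∃ S : Finset V, S.card = p ∧ S.powersetCard r = t := by
  unfold Cl
  simp [mem_image, mem_powersetCard]

lemma indep_Cl {r p : ℕ} {E : Finset (Finset V)} :
    Indep (Cl V r p) E ↔ ∀ S : Finset V, S.card = p → ¬ S.powersetCard r ⊆ E := by
  unfold Indep
  constructor
  · intro h S hS
    exact h _ (mem_Cl.2 ⟨S, hS, rfl⟩)
  · intro h t ht
    obtain ⟨S, hS, rfl⟩ := mem_Cl.1 ht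
    exact h S hS

lemma card_Cl {r p : ℕ} {t : Finset (Finset V)} (ht : t ∈ Cl V r p) : t.card = p.choose r := by
  obtain ⟨S, hS, rfl⟩ := mem_Cl.1 ht
  rw [card_powersetCard, hS]

lemma indep_Ex1 {r p : ℕ} [NeZero r] (hr : 2 ≤ r) (hp : r < p) (c : V → Fin r)
    (E : Finset (Finset V)) : Indep (Cl V r p) (E.filter (Ex1 c)) := by
  rw [indep_Cl]
  intro S hS hsub
  obtain ⟨K, hKS, hK⟩ := exists_subset_card_eq (show r + 1 ≤ S.card by omega)
  have hall : ∀ e, e ⊆ K → e.card = r → Ex1 c e := fun e he hc =>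
    (mem_filter.1 (hsub (mem_powersetCard.2 ⟨he.trans hKS, hc⟩))).2
  have her : ∀ v ∈ K, Ex1 c (K.erase v) := by
    intro v hv
    exact hall _ (erase_subset _ _) (by rw [card_erase_of_mem hv, hK]; omega)
  -- some vertex of `K` has the colour `0`
  obtain ⟨v0, hv0⟩ : K.Nonempty := by rw [← card_pos]; omega
  have h1 := her v0 hv0
  unfold Ex1 at h1
  obtain ⟨u, hu⟩ := card_eq_one.1 h1
  have huK : u ∈ (K.erase v0).filter fun v => c v = 0 := by rw [hu]; exact mem_singleton_self _
  rw [mem_filter, mem_erase] at huK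
  -- the set without `u` contains another vertex `w` of the colour `0`
  have h2 := her u huK.1.2
  unfold Ex1 at h2
  obtain ⟨w, hw⟩ := card_eq_one.1 h2
  have hwK : w ∈ (K.erase u).filter fun v => c v = 0 := by rw [hw]; exact mem_singleton_self _
  rw [mem_filter, mem_erase] at hwK
  -- the set without a third vertex contains both
  obtain ⟨x, hx⟩ : (K \ {u, w}).Nonempty := by
    rw [← card_pos]
    have h3 := le_card_sdiff {u, w} K
    have h4 : ({u, w} : Finset V).card ≤ 2 := card_le_two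
    omega
  rw [mem_sdiff, mem_insert, mem_singleton, not_or] at hx
  have h3 := her x hx.1
  unfold Ex1 at h3
  have h4 : ({u, w} : Finset V) ⊆ (K.erase x).filter fun v => c v = 0 := by
    intro y hy
    rw [mem_insert, mem_singleton] at hy
    rw [mem_filter, mem_erase]
    rcases hy with rfl | rfl
    · exact ⟨⟨fun h => hx.2.1 h.symm, huK.1.2⟩, huK.2⟩
    · exact ⟨⟨fun h => hx.2.2 h.symm, hwK.1.2⟩, hwK.2⟩
  have h5 := card_le_card h4
  rw [card_pair (Ne.symm hwK.1.1), h3] at h5
  omega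

lemma choose_ge {r p : ℕ} (hr : 1 ≤ r) (hp : r < p) : r + 1 ≤ p.choose r := by
  calc r + 1 = (r + 1).choose r := by rw [Nat.choose_succ_self_right]
    _ ≤ p.choose r := Nat.choose_le_choose r hp

/-- **Large clique-free subfamilies.** -/
lemma exists_indep {r p : ℕ} (hr : 2 ≤ r) (hp : r < p) (E : Finset (Finset V))
    (hE : E ⊆ univ.powersetCard r) :
    ∃ F ⊆ E, Indep (Cl V r p) F ∧ (E.card : ℝ) ≤ (p.choose r : ℝ) * F.card := by
  have : NeZero r := ⟨by omega⟩
  have hr0 : (0 : ℝ) < r := by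
    have : 0 < r := by omega
    exact_mod_cast this
  by_contra hcon
  push Not at hcon
  have h1 : ∀ c : V → Fin r, ((p.choose r : ℕ) : ℝ) * ((E.filter (Ex1 c)).card : ℝ) < E.card :=
    fun c => hcon _ (filter_subset _ _) (indep_Ex1 hr hp c E)
  have h2 : ∑ c : V → Fin r, ((p.choose r : ℕ) : ℝ) * ((E.filter (Ex1 c)).card : ℝ) <
      ∑ c : V → Fin r, (E.card : ℝ) := by
    apply sum_lt_sum_of_nonempty _ (fun c _ => h1 c)
    exact ⟨fun _ => 0, mem_univ _⟩
  rw [sum_const, card_univ, Fintype.card_fun, Fintype.card_fin, nsmul_eq_mul, ← mul_sum] at h2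
  have h3 : ∑ c : V → Fin r, ((E.filter (Ex1 c)).card : ℝ) =
      ∑ e ∈ E, ((univ.filter fun c : V → Fin r => Ex1 c e).card : ℝ) := by
    have : ∑ c : V → Fin r, (E.filter (Ex1 c)).card =
        ∑ e ∈ E, (univ.filter fun c : V → Fin r => Ex1 c e).card := by
      simp only [card_filter]
      rw [sum_comm]
    exact_mod_cast this
  have h4 : ∀ e ∈ E, ((univ.filter fun c : V → Fin r => Ex1 c e).card : ℝ) * (r : ℝ) ^ r =
      r * (((r : ℝ) - 1) ^ (r - 1) * (r : ℝ) ^ Fintype.card V) := by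
    intro e he
    have h5 := count_Ex1 (r := r) e (mem_powersetCard.1 (hE he)).2
    have h6 : (((univ.filter fun c : V → Fin r => Ex1 c e).card * r ^ r : ℕ) : ℝ) =
        ((r * ((r - 1) ^ (r - 1) * r ^ Fintype.card V) : ℕ) : ℝ) := by rw [h5]
    push_cast [Nat.cast_sub (show 1 ≤ r by omega)] at h6
    exact h6
  have h5 : (∑ c : V → Fin r, ((E.filter (Ex1 c)).card : ℝ)) * (r : ℝ) ^ r =
      E.card * (r * (((r : ℝ) - 1) ^ (r - 1) * (r : ℝ) ^ Fintype.card V)) := by
    rw [h3, sum_mul, sum_congr rfl h4, sum_const, nsmul_eq_mul]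
  have hb := bern hr
  have hC : (r : ℝ) ≤ (p.choose r : ℕ) := by
    have := choose_ge (r := r) (p := p) (by omega) hp
    have : r ≤ p.choose r := by omega
    exact_mod_cast this
  have hr1 : (0 : ℝ) ≤ (r : ℝ) - 1 := by
    have : (1 : ℝ) ≤ r := by
      have : 1 ≤ r := by omega
      exact_mod_cast this
    linarith
  have hpow : (0 : ℝ) < (r : ℝ) ^ r := by positivity
  have h6 := mul_lt_mul_of_pos_right h2 hpow
  have h7 : ((p.choose r : ℕ) : ℝ) * (∑ c : V → Fin r, ((E.filter (Ex1 c)).card : ℝ)) *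
      (r : ℝ) ^ r = (p.choose r : ℕ) * (E.card * (r * (((r : ℝ) - 1) ^ (r - 1) *
        (r : ℝ) ^ Fintype.card V))) := by
    rw [mul_assoc, h5]
  rw [h7] at h6
  have h8 : (E.card : ℝ) * ((r : ℝ) ^ Fintype.card V) * (r : ℝ) ^ r ≤
      (p.choose r : ℕ) * (E.card * (r * (((r : ℝ) - 1) ^ (r - 1) *
        (r : ℝ) ^ Fintype.card V))) := by
    calc (E.card : ℝ) * ((r : ℝ) ^ Fintype.card V) * (r : ℝ) ^ r
        ≤ (E.card : ℝ) * ((r : ℝ) ^ Fintype.card V) * (r * (r * ((r : ℝ) - 1) ^ (r - 1))) := by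
          gcongr
      _ = r * (E.card * (r * (((r : ℝ) - 1) ^ (r - 1) * (r : ℝ) ^ Fintype.card V))) := by ring
      _ ≤ _ := by gcongr
  have h9 : ((r ^ Fintype.card V : ℕ) : ℝ) * (E.card : ℝ) * (r : ℝ) ^ r =
      (E.card : ℝ) * ((r : ℝ) ^ Fintype.card V) * (r : ℝ) ^ r := by
    push_cast
    ring
  rw [h9] at h6
  linarith

/-- **The fractional Erdős–Sauer bound, in terms of covers.** -/
theorem cover_bound {r p : ℕ} (hr : 2 ≤ r) (hp : r < p) (H : Finset (Finset V))
    (hH : H ⊆ univ.powersetCard r) (z : Finset V → ℝ) (hz : ∀ e ∈ H, 0 ≤ z e)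
    (hcov : ∀ S : Finset V, S.card = p → S.powersetCard r ⊆ H →
      1 ≤ ∑ e ∈ S.powersetCard r, z e) :
    ∃ F ⊆ H, (∀ S : Finset V, S.card = p → ¬ S.powersetCard r ⊆ F) ∧
      (H.card : ℝ) - ((p.choose r : ℝ) - 1) * ∑ e ∈ H, z e ≤ F.card := by
  have hC := choose_ge (r := r) (p := p) (by omega) hp
  obtain ⟨F, hF, hFi, hFc⟩ := frac_cover (Cl V r p) (p.choose r) (by omega)
    (fun t ht => card_Cl ht) (univ.powersetCard r) (fun E hE => exists_indep hr hp E hE)
    H.card H rfl hH z hz (by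
      intro t ht htH
      obtain ⟨S, hS, rfl⟩ := mem_Cl.1 ht
      exact hcov S hS htH)
  exact ⟨F, hF, indep_Cl.1 hFi, hFc⟩

end Q116.ES
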